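import Pool.Agent.N538.PQ.Stm

set_option autoImplicit false

/-!
# PQ/BLOCK: all short intervals contain chosen and not chosen odd numbers (helper49)
-/

namespace Pool.Agent.N538.PQ

open Finset MeasureTheory ProbabilityTheory Filter

/-- products over independent events or their complements -/
theorem BLOCK_prod {Ω : Type} [MeasurableSpace Ω] {μ : Measure Ω} [IsProbabilityMeasure μ]
    {A : ℕ → Set Ω} (hi : iIndepSet A μ) (O : Finset ℕ) {f : ℕ → Set Ω}
    (hf : ∀ m ∈ O, MeasurableSet[MeasurableSpace.generateFrom {A m}] (f m)) {c : ℝ}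
    (h : ∀ m ∈ O, μ.real (f m) ≤ c) : μ.real (⋂ m ∈ O, f m) ≤ c ^ O.card := by
  have h1 := (iIndepSet_iff A μ).1 hi O hf
  rw [measureReal_def, h1, ENNReal.toReal_prod]
  calc ∏ m ∈ O, (μ (f m)).toReal ≤ ∏ _m ∈ O, c :=
        Finset.prod_le_prod (fun m _ => ENNReal.toReal_nonneg) h
    _ = c ^ O.card := Finset.prod_const c

theorem BLOCK_card (b L : ℕ) : L / 2 ≤ ((Ioc b (b + L)).filter Odd).card := by
  have h : (range (L / 2)).card ≤ ((Ioc b (b + L)).filter Odd).card := by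
    refine Finset.card_le_card_of_injOn (fun i => 2 * ((b + 1) / 2) + 1 + 2 * i) ?_ ?_
    · intro i hi
      have hi' : i < L / 2 := by simpa using hi
      simp only [coe_filter, Set.mem_ofPred_eq, Finset.mem_Ioc]
      refine ⟨⟨by omega, by omega⟩, ⟨(b + 1) / 2 + i, by ring⟩⟩
    · intro i _ j _ hij
      simp only at hij
      omega
  rwa [card_range] at h

theorem t_BLOCK : S_BLOCK := by
  intro κ m₀ hκ hm₀
  have hlog : Tendsto (fun n : ℕ => Real.log n) atTop atTop :=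
    Real.tendsto_log_atTop.comp tendsto_natCast_atTop_atTop
  have c1 : ∀ᶠ n : ℕ in atTop, 28 * (4 : ℝ) ^ κ ≤ Real.log n := hlog.eventually_ge_atTop _
  have c2 : ∀ᶠ n : ℕ in atTop, (4 * Real.log n) ^ (-κ) ≤ 1 / 2 := by
    have h2 : Tendsto (fun n : ℕ => 4 * Real.log n) atTop atTop :=
      hlog.const_mul_atTop (by norm_num)
    exact ((tendsto_rpow_neg_atTop hκ).comp h2).eventually_le_const (by norm_num)
  have c3 : ∀ᶠ n : ℕ in atTop, Real.log n ^ (κ + 2) ≤ 1 / 2 * (n : ℝ) := by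
    have h := (isLittleO_log_rpow_rpow_atTop (κ + 2) one_pos).bound
      (show (0 : ℝ) < 1 / 2 by norm_num)
    filter_upwards [tendsto_natCast_atTop_atTop.eventually h] with n hn
    rw [Real.rpow_one, Real.norm_natCast] at hn
    exact (le_abs_self _).trans hn
  filter_upwards [c1, c2, c3, eventually_ge_atTop 2] with n h1 h2 h3 hn Ω _ μ _ A hM
  have h4κ : (1 : ℝ) ≤ (4 : ℝ) ^ κ := Real.one_le_rpow (by norm_num) hκ.le
  have hl28 : 28 ≤ Real.log n := by nlinarith
  have hn2 : (2 : ℝ) ≤ n := by exact_mod_cast hn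
  obtain ⟨δ, hδ⟩ : ∃ δ, δ = (4 * Real.log n) ^ (-κ) := ⟨_, rfl⟩
  rw [← hδ] at h2
  have hδ0 : 0 < δ := by
    rw [hδ]
    exact Real.rpow_pos_of_pos (by linarith) _
  -- the length
  have hL1 : Real.log n ^ (κ + 2) ≤ (LL κ n : ℝ) := Nat.le_ceil _
  have hpos : 0 ≤ Real.log n ^ (κ + 2) := Real.rpow_nonneg (by linarith) _
  have hL2 : (LL κ n : ℝ) ≤ n := by
    have := Nat.ceil_lt_add_one hpos
    have h5 : (LL κ n : ℝ) < Real.log n ^ (κ + 2) + 1 := this
    linarith
  have hL2' : LL κ n ≤ n := by exact_mod_cast hL2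
  have hbig : 28 ≤ Real.log n ^ (κ + 2) := by
    calc (28 : ℝ) ≤ Real.log n := hl28
      _ = Real.log n ^ (1 : ℝ) := (Real.rpow_one _).symm
      _ ≤ _ := Real.rpow_le_rpow_of_exponent_le (by linarith) (by linarith)
  -- the bound for one block
  have hexp : ∀ b : ℕ, (1 - δ) ^ ((Ioc b (b + LL κ n)).filter Odd).card ≤ ((n : ℝ) ^ 7)⁻¹ := by
    intro b
    have hc := BLOCK_card b (LL κ n)
    have hc2 : Real.log n ^ (κ + 2) / 4 ≤ (((Ioc b (b + LL κ n)).filter Odd).card : ℝ) := by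
      have h5 : ((LL κ n : ℝ) - 1) / 2 ≤ ((LL κ n / 2 : ℕ) : ℝ) := by
        have h6 : LL κ n ≤ 2 * (LL κ n / 2) + 1 := by omega
        have h7 : (LL κ n : ℝ) ≤ 2 * ((LL κ n / 2 : ℕ) : ℝ) + 1 := by exact_mod_cast h6
        linarith
      have h6 : ((LL κ n / 2 : ℕ) : ℝ) ≤ (((Ioc b (b + LL κ n)).filter Odd).card : ℝ) := by
        exact_mod_cast hc
      linarith
    have hd : 7 * Real.log n ≤ δ * (Real.log n ^ (κ + 2) / 4) := by
      rw [hδ, Real.mul_rpow (by norm_num) (by linarith), Real.rpow_add (by linarith) κ 2]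
      have e1 : Real.log n ^ (-κ) * Real.log n ^ κ = 1 := by
        rw [← Real.rpow_add (by linarith), neg_add_cancel, Real.rpow_zero]
      have e2 : (4 : ℝ) ^ (-κ) * (4 : ℝ) ^ κ = 1 := by
        rw [← Real.rpow_add (by norm_num), neg_add_cancel, Real.rpow_zero]
      have e3 : Real.log n ^ (2 : ℝ) = Real.log n ^ 2 := by norm_cast
      rw [e3]
      have e4 : (4 : ℝ) ^ (-κ) * Real.log n ^ (-κ) * (Real.log n ^ κ * Real.log n ^ 2 / 4) =
          (4 : ℝ) ^ (-κ) * Real.log n ^ 2 / 4 * (Real.log n ^ (-κ) * Real.log n ^ κ) := by ring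
      rw [e4, e1, mul_one]
      have h0 : 0 < (4 : ℝ) ^ (-κ) := Real.rpow_pos_of_pos (by norm_num) _
      have h5 : 28 ≤ (4 : ℝ) ^ (-κ) * Real.log n := by
        have := mul_le_mul_of_nonneg_left h1 h0.le
        nlinarith
      nlinarith
    calc (1 - δ) ^ ((Ioc b (b + LL κ n)).filter Odd).card
        ≤ Real.exp (-δ) ^ ((Ioc b (b + LL κ n)).filter Odd).card :=
          pow_le_pow_left₀ (by linarith) (by
            have := Real.add_one_le_exp (-δ)
            linarith) _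
      _ = Real.exp (-(δ * ((Ioc b (b + LL κ n)).filter Odd).card)) := by
          rw [← Real.exp_nat_mul]
          congr 1
          ring
      _ ≤ Real.exp (-(7 * Real.log n)) := by
          refine Real.exp_le_exp.2 (neg_le_neg (hd.trans ?_))
          exact mul_le_mul_of_nonneg_left hc2 hδ0.le
      _ = ((n : ℝ) ^ 7)⁻¹ := by
          rw [Real.exp_neg, mul_comm, Real.exp_mul, Real.exp_log (by linarith)]
          norm_cast
  -- one factor
  have hfac : ∀ b : ℕ, m₀ ≤ b → b ≤ n ^ 3 → ∀ m ∈ (Ioc b (b + LL κ n)).filter Odd,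
      μ.real (A m)ᶜ ≤ 1 - δ ∧ μ.real (A m) ≤ 1 - δ := by
    intro b hb1 hb2 m hm
    rw [mem_filter, mem_Ioc] at hm
    obtain ⟨⟨hm1, hm2⟩, hodd⟩ := hm
    constructor
    · rw [measureReal_compl (hM.meas m), probReal_univ]
      have h5 := hM.low m (by omega) hodd
      have h6 : δ ≤ Real.log m ^ (-κ) := by
        rw [hδ]
        have hm3 : (3 : ℝ) ≤ m := by
          have : 3 ≤ m := by omega
          exact_mod_cast this
        refine Real.rpow_le_rpow_of_nonpos (Real.log_pos (by linarith)) ?_ (by linarith)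
        have hm4 : m ≤ n ^ 4 := by
          have : n ^ 3 + n ≤ n ^ 4 := by
            have h8 : n ^ 4 = n ^ 3 * n := by ring
            have h9 : n ≤ n ^ 3 := by
              calc n = n ^ 1 := (pow_one n).symm
                _ ≤ n ^ 3 := Nat.pow_le_pow_right (by omega) (by norm_num)
            rw [h8]
            nlinarith
          omega
        have hm5 : (m : ℝ) ≤ (n : ℝ) ^ 4 := by exact_mod_cast hm4
        calc Real.log m ≤ Real.log ((n : ℝ) ^ 4) := Real.log_le_log (by linarith) hm5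
          _ = 4 * Real.log n := by
            rw [Real.log_pow]
            norm_num
      linarith
    · have h5 := hM.high m (by omega) hodd
      linarith
  -- the union bound
  have hsub : {ω | ¬ Dense m₀ (LL κ n) (n ^ 3) (R A ω)} ⊆ ⋃ b ∈ Icc m₀ (n ^ 3),
      ((⋂ m ∈ (Ioc b (b + LL κ n)).filter Odd, (A m)ᶜ) ∪
        ⋂ m ∈ (Ioc b (b + LL κ n)).filter Odd, A m) := by
    intro ω hω
    have h5 : ¬ Dense m₀ (LL κ n) (n ^ 3) (R A ω) := hω
    unfold Dense at h5
    push Not at h5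
    obtain ⟨b, hb1, hb2, h6⟩ := h5
    simp only [Set.mem_iUnion]
    refine ⟨b, Finset.mem_Icc.2 ⟨hb1, hb2⟩, ?_⟩
    by_cases h7 : ∃ m ∈ Ioc b (b + LL κ n), m ∈ R A ω
    · right
      simp only [Set.mem_iInter]
      intro m hm
      rw [mem_filter] at hm
      exact h6 h7 m hm.1 hm.2
    · left
      simp only [Set.mem_iInter]
      intro m hm hmA
      rw [mem_filter] at hm
      exact h7 ⟨m, hm.1, hmA⟩
  have hgen : ∀ m, MeasurableSet[MeasurableSpace.generateFrom {A m}] (A m) := fun m =>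
    MeasurableSpace.measurableSet_generateFrom rfl
  have hblock : ∀ b ∈ Icc m₀ (n ^ 3), μ.real ((⋂ m ∈ (Ioc b (b + LL κ n)).filter Odd, (A m)ᶜ) ∪
      ⋂ m ∈ (Ioc b (b + LL κ n)).filter Odd, A m) ≤ 2 * ((n : ℝ) ^ 7)⁻¹ := by
    intro b hb
    rw [Finset.mem_Icc] at hb
    have h5 := BLOCK_prod hM.indep ((Ioc b (b + LL κ n)).filter Odd) (f := fun m => (A m)ᶜ)
      (fun m _ => (hgen m).compl) (fun m hm => (hfac b hb.1 hb.2 m hm).1)
    have h6 := BLOCK_prod hM.indep ((Ioc b (b + LL κ n)).filter Odd) (f := A)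
      (fun m _ => hgen m) (fun m hm => (hfac b hb.1 hb.2 m hm).2)
    have h7 := hexp b
    refine (measureReal_union_le _ _).trans ?_
    linarith
  calc μ.real {ω | ¬ Dense m₀ (LL κ n) (n ^ 3) (R A ω)}
      ≤ μ.real (⋃ b ∈ Icc m₀ (n ^ 3), ((⋂ m ∈ (Ioc b (b + LL κ n)).filter Odd, (A m)ᶜ) ∪
        ⋂ m ∈ (Ioc b (b + LL κ n)).filter Odd, A m)) := measureReal_mono hsub (measure_ne_top _ _)
    _ ≤ ∑ b ∈ Icc m₀ (n ^ 3), μ.real ((⋂ m ∈ (Ioc b (b + LL κ n)).filter Odd, (A m)ᶜ) ∪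
        ⋂ m ∈ (Ioc b (b + LL κ n)).filter Odd, A m) := measureReal_biUnion_finset_le _ _
    _ ≤ ∑ _b ∈ Icc m₀ (n ^ 3), 2 * ((n : ℝ) ^ 7)⁻¹ := Finset.sum_le_sum hblock
    _ = ((Icc m₀ (n ^ 3)).card : ℝ) * (2 * ((n : ℝ) ^ 7)⁻¹) := by
        rw [sum_const, nsmul_eq_mul]
    _ ≤ (n : ℝ) ^ 3 * (2 * ((n : ℝ) ^ 7)⁻¹) := by
        refine mul_le_mul_of_nonneg_right ?_ (by positivity)
        have : (Icc m₀ (n ^ 3)).card ≤ n ^ 3 := by
          rw [Nat.card_Icc]
          omega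
        exact_mod_cast this
    _ = 2 / (n : ℝ) ^ 4 := by
        field_simp
    _ ≤ 1 / (n : ℝ) ^ 2 := by
        rw [div_le_div_iff₀ (by positivity) (by positivity)]
        have : (2 : ℝ) ≤ (n : ℝ) ^ 2 := by nlinarith
        have h9 : (0 : ℝ) < (n : ℝ) ^ 2 := by positivity
        nlinarith

end Pool.Agent.N538.PQ
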