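import Pool.Agent.N538.PQ.Stm

/-!
# Project PQ: the value and the cofactor determine the prime; the values are odd
-/

set_option autoImplicit false

namespace Pool.Agent.N538.PQ

open Finset MeasureTheory ProbabilityTheory Filter

theorem coll_half (m : ℕ) : Nat.totient (2 * m) ≤ m := by
  induction m using Nat.strong_induction_on with
  | _ m ih =>
    rcases Nat.even_or_odd m with he | ho
    · obtain ⟨k, rfl⟩ := he
      rcases Nat.eq_zero_or_pos k with rfl | hk
      · simp
      · have h1 := ih k (by omega)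
        have h2 : Nat.totient (2 * (k + k)) = 2 * Nat.totient (k + k) :=
          Nat.totient_mul_of_prime_of_dvd Nat.prime_two ⟨k, by ring⟩
        have h3 : k + k = 2 * k := by ring
        rw [h2, h3]
        omega
    · have h1 : Nat.totient (2 * m) = Nat.totient 2 * Nat.totient m :=
        Nat.totient_mul (Nat.coprime_two_left.2 ho)
      rw [h1, Nat.totient_two, one_mul]
      exact Nat.totient_le m

theorem coll_val {n a l p r : ℕ} (ha1 : 1 ≤ a) (ha : a ≤ 4) (hl : 0 < l) (h4 : 4 ∣ l)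
    (hp : p.Prime) (h5 : 5 ≤ p) (hr : r.Prime) (hrl : ¬ r ∣ l) (hn : n = a * p + l * r) :
    q n (a * p) = Nat.totient a * (p - 1) + Nat.totient l / 2 * (r - 1) + 1 ∧
      4 * (Nat.totient l / 2) ≤ l := by
  obtain ⟨t, rfl⟩ := h4
  have e1 : 4 * t = 2 * (2 * t) := by ring
  have h1 : Nat.totient (4 * t) = 2 * Nat.totient (2 * t) := by
    rw [e1]
    exact Nat.totient_mul_of_prime_of_dvd Nat.prime_two ⟨t, rfl⟩
  have h2 := coll_half t
  have h3 : Nat.totient (a * p) = Nat.totient a * (p - 1) := by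
    rw [Nat.totient_mul, Nat.totient_prime hp]
    exact ((hp.coprime_iff_not_dvd).2 (Nat.not_dvd_of_pos_of_lt ha1 (by omega))).symm
  have h6 : Nat.totient (4 * t * r) = Nat.totient (4 * t) * (r - 1) := by
    rw [Nat.totient_mul, Nat.totient_prime hr]
    exact ((hr.coprime_iff_not_dvd).2 hrl).symm
  have h7 : n - a * p = 4 * t * r := by omega
  have h8 : Nat.totient (4 * t) / 2 = Nat.totient (2 * t) := by omega
  refine ⟨?_, by omega⟩
  rw [q, h7, h3, h6, h8, h1, mul_assoc, Nat.mul_div_cancel_left _ (by norm_num : 0 < 2)]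

theorem t_COLL : S_COLL := by
  intro n a l p₁ p₂ r₁ r₂ ha1 ha hl h4 hp1 hp2 h51 h52 hr1 hr2 hd1 hd2 hn1 hn2 hq
  obtain ⟨v1, hf⟩ := coll_val ha1 ha hl h4 hp1 h51 hr1 hd1 hn1
  obtain ⟨v2, -⟩ := coll_val ha1 ha hl h4 hp2 h52 hr2 hd2 hn2
  rw [v1, v2] at hq
  set f := Nat.totient l / 2 with hfdef
  have hr1' := hr1.two_le
  have hr2' := hr2.two_le
  have q1 : (Nat.totient a : ℤ) * (p₁ - 1) + f * (r₁ - 1) =
      (Nat.totient a : ℤ) * (p₂ - 1) + f * (r₂ - 1) := by
    have := congrArg (Nat.cast : ℕ → ℤ) hq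
    push_cast [Nat.cast_sub (by omega : 1 ≤ p₁), Nat.cast_sub (by omega : 1 ≤ p₂),
      Nat.cast_sub (by omega : 1 ≤ r₁), Nat.cast_sub (by omega : 1 ≤ r₂)] at this
    linarith
  have q2 : (a : ℤ) * p₁ + l * r₁ = a * p₂ + l * r₂ := by
    exact_mod_cast hn1.symm.trans hn2
  have q3 : ((Nat.totient a : ℤ) * l - a * f) * (r₁ - r₂) = 0 := by
    linear_combination (Nat.totient a : ℤ) * q2 - (a : ℤ) * q1
  have q4 : (r₁ : ℤ) - r₂ = 0 := by
    rcases mul_eq_zero.1 q3 with h | h
    · exfalso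
      have hf' : 4 * (f : ℤ) ≤ l := by exact_mod_cast hf
      have hl' : (0 : ℤ) < l := by exact_mod_cast hl
      have ht : a < 4 * Nat.totient a := by
        have : a = 1 ∨ a = 2 ∨ a = 3 ∨ a = 4 := by omega
        rcases this with rfl | rfl | rfl | rfl <;> decide
      have ht' : (a : ℤ) < 4 * (Nat.totient a : ℤ) := by exact_mod_cast ht
      have ha0 : (0 : ℤ) ≤ a := by positivity
      nlinarith [mul_le_mul_of_nonneg_left hf' ha0, mul_lt_mul_of_pos_right ht' hl']
    · exact h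
  have q5 : (r₁ : ℤ) = r₂ := by linarith
  have q6 : (a : ℤ) * p₁ = a * p₂ := by
    rw [q5] at q2
    linarith
  have ha0 : (a : ℤ) ≠ 0 := by
    have : (1 : ℤ) ≤ a := by exact_mod_cast ha1
    omega
  exact_mod_cast mul_left_cancel₀ ha0 q6

theorem t_PAR : S_PAR := by
  intro n a l p r ha1 ha hl h4 hp h5 hr h3 hd hn
  obtain ⟨v1, -⟩ := coll_val ha1 ha hl h4 hp h5 hr hd hn
  rw [v1]
  have e1 : Even (p - 1) := hp.even_sub_one (by omega)
  have e2 : Even (r - 1) := hr.even_sub_one (by omega)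
  exact ((e1.mul_left _).add (e2.mul_left _)).add_one

end Pool.Agent.N538.PQ
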