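import Mathlib

/-!
# Project PQ: random models for `MP_61a569_nt`

`q n k = φ(k) + φ(n - k) / 2 + 1`; the problem asks for `k` with `q`, `p_q - q - 1`, `p_q - q + 1` prime.
-/

set_option autoImplicit false

namespace Pool.Agent.N538.PQ

open Finset MeasureTheory ProbabilityTheory Filter

/-- `q n k = φ(k) + φ(n - k) / 2 + 1`. -/
def q (n k : ℕ) : ℕ := Nat.totient k + Nat.totient (n - k) / 2 + 1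

/-- `y = exp((log n)^(1/5))` -/
noncomputable def yy (n : ℕ) : ℝ := Real.exp (Real.log n ^ ((1 : ℝ) / 5))

/-- the `j`-th element of `S`, `j ≥ 1` -/
noncomputable def r (S : Set ℕ) (j : ℕ) : ℕ := Nat.nth (· ∈ S) (j - 1)

/-- `v` and `r_v - v ± 1` are elements of `S` -/
def Succ (S : Set ℕ) (v : ℕ) : Prop := v ∈ S ∧ r S v - v - 1 ∈ S ∧ r S v - v + 1 ∈ S

/-- the random set -/
def R {Ω : Type} (A : ℕ → Set Ω) (ω : Ω) : Set ℕ := {m | ω ∈ A m}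

/-- every interval `(b, b + L]`, `b₀ ≤ b ≤ N`, contains an element of `S` and an odd number
which is not in `S` -/
def Dense (b₀ L N : ℕ) (S : Set ℕ) : Prop := ∀ b : ℕ, b₀ ≤ b → b ≤ N →
  (∃ m ∈ Ioc b (b + L), m ∈ S) ∧ (∃ m ∈ Ioc b (b + L), Odd m ∧ m ∉ S)

/-- the block length -/
noncomputable def LL (κ : ℝ) (n : ℕ) : ℕ := ⌈Real.log n ^ (κ + 2)⌉₊

/-- independent events `A m`, impossible for even `m ≠ 2`, with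
`(log m)^(-κ) ≤ P(A m) ≤ 1/2` for odd `m ≥ m₀` -/
structure Model (κ : ℝ) (m₀ : ℕ) {Ω : Type} [MeasurableSpace Ω] (μ : Measure Ω)
    (A : ℕ → Set Ω) : Prop where
  meas : ∀ m, MeasurableSet (A m)
  indep : iIndepSet A μ
  even : ∀ m, Even m → m ≠ 2 → A m = ∅
  low : ∀ m, m₀ ≤ m → Odd m → Real.log m ^ (-κ) ≤ μ.real (A m)
  high : ∀ m, m₀ ≤ m → Odd m → μ.real (A m) ≤ 1 / 2

/-- a set of odd values in a short window, with gaps at least `4` and least element `Z` -/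
structure Win (κ : ℝ) (n : ℕ) (T : Finset ℕ) (Z : ℕ) : Prop where
  mem : Z ∈ T
  odd : ∀ v ∈ T, Odd v
  low : ∀ v ∈ T, Real.sqrt n ≤ v
  high : ∀ v ∈ T, v ≤ 2 * n
  least : ∀ v ∈ T, Z ≤ v
  short : ∀ v ∈ T, (v : ℝ) ≤ Z + Z / Real.log n ^ (κ + 4)
  gap : ∀ v ∈ T, ∀ w ∈ T, v < w → v + 4 ≤ w

/-! ## Part A: many values -/

open scoped Classical in
/-- RANKIN: few integers up to `n` have all their prime factors below `y`. -/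
def S_RANKIN : Prop := ∀ᶠ n : ℕ in atTop,
  (((Icc 1 n).filter (fun m : ℕ => ∀ p : ℕ, p.Prime → p ∣ m → (p : ℝ) < yy n)).card : ℝ) ≤
    n / Real.log n ^ 3

/-- PRIMES -/
def S_PRIMES : Prop := ∃ c : ℝ, 0 < c ∧ ∀ᶠ n : ℕ in atTop,
  c * n / Real.log n ≤
    (((Icc 5 (n / 5)).filter (fun p : ℕ => p.Prime ∧ Real.sqrt n < p)).card : ℝ)

open scoped Classical in
/-- SQ -/
def S_SQ : Prop := ∀ (n : ℕ) (y : ℝ), 1 ≤ y →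
  (((Icc 1 n).filter (fun m : ℕ => ∃ p : ℕ, p.Prime ∧ y ≤ p ∧ p ^ 2 ∣ m)).card : ℝ) ≤ 2 * n / y

/-- COLL: the value and `l` determine `p`. -/
def S_COLL : Prop := ∀ n a l p₁ p₂ r₁ r₂ : ℕ, 1 ≤ a → a ≤ 4 → 0 < l → 4 ∣ l →
  p₁.Prime → p₂.Prime → 5 ≤ p₁ → 5 ≤ p₂ → r₁.Prime → r₂.Prime → ¬ r₁ ∣ l → ¬ r₂ ∣ l →
  n = a * p₁ + l * r₁ → n = a * p₂ + l * r₂ → q n (a * p₁) = q n (a * p₂) → p₁ = p₂

/-- PAR: the values are odd. -/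
def S_PAR : Prop := ∀ n a l p r : ℕ, 1 ≤ a → a ≤ 4 → 0 < l → 4 ∣ l → p.Prime → 5 ≤ p →
  r.Prime → 3 ≤ r → ¬ r ∣ l → n = a * p + l * r → Odd (q n (a * p))

/-- VALS: many odd values -/
def S_VALS : Prop := ∀ᶠ n : ℕ in atTop, ∃ V : Finset ℕ,
  Real.exp (Real.log n ^ ((1 : ℝ) / 5) / 2) ≤ (V.card : ℝ) ∧
  ∀ v ∈ V, Odd v ∧ Real.sqrt n ≤ v ∧ v ≤ 2 * n ∧ ∃ k : ℕ, 1 ≤ k ∧ k + 2 < n ∧ q n k = v

/-- WIN: many values in a short window with gaps at least 4, cut into `M` groups -/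
def S_WIN : Prop := ∀ κ : ℝ, 0 < κ → ∀ᶠ n : ℕ in atTop, ∃ T : ℕ → Finset ℕ,
  (∀ i < ⌈Real.exp (Real.log n ^ ((1 : ℝ) / 6))⌉₊, ∃ Z : ℕ, Win κ n (T i) Z) ∧
  (∀ i < ⌈Real.exp (Real.log n ^ ((1 : ℝ) / 6))⌉₊,
    Real.log n ^ (3 * κ + 3) ≤ ((T i).card : ℝ)) ∧
  (∀ i < ⌈Real.exp (Real.log n ^ ((1 : ℝ) / 6))⌉₊, ∀ v ∈ T i,
    ∃ k : ℕ, 1 ≤ k ∧ k + 2 < n ∧ q n k = v) ∧
  (∀ i < ⌈Real.exp (Real.log n ^ ((1 : ℝ) / 6))⌉₊, ∀ j < i, Disjoint (T i) (T j))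

/-! ## Part B: probability -/

/-- IND -/
def S_IND : Prop := ∀ (Ω : Type) [MeasurableSpace Ω] (μ : Measure Ω) [IsProbabilityMeasure μ]
  (A : ℕ → Set Ω), (∀ m, MeasurableSet (A m)) → iIndepSet A μ →
  ∀ (J S T : Finset ℕ) (I : ℕ → Finset ℕ), S ⊆ J → (∀ v ∈ T, Disjoint (I v) J) →
    (∀ v ∈ T, ∀ w ∈ T, v ≠ w → Disjoint (I v) (I w)) →
    μ.real {ω | (∀ m ∈ J, (ω ∈ A m ↔ m ∈ S)) ∧ ∀ v ∈ T, ¬ ∀ m ∈ I v, ω ∈ A m} =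
      μ.real {ω | ∀ m ∈ J, (ω ∈ A m ↔ m ∈ S)} * ∏ v ∈ T, (1 - ∏ m ∈ I v, μ.real (A m))

/-- BLOCK -/
def S_BLOCK : Prop := ∀ (κ : ℝ) (m₀ : ℕ), 0 < κ → 2 ≤ m₀ → ∀ᶠ n : ℕ in atTop,
  ∀ (Ω : Type) [MeasurableSpace Ω] (μ : Measure Ω) [IsProbabilityMeasure μ] (A : ℕ → Set Ω),
    Model κ m₀ μ A → μ.real {ω | ¬ Dense m₀ (LL κ n) (n ^ 3) (R A ω)} ≤ 1 / (n : ℝ) ^ 2

/-- LOC: the position of the elements number `v ∈ T` -/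
def S_LOC : Prop := ∀ (κ : ℝ) (m₀ : ℕ), 0 < κ → 2 ≤ m₀ → ∀ᶠ n : ℕ in atTop,
  ∀ (T : Finset ℕ) (Z : ℕ), Win κ n T Z → ∀ S : Set ℕ, (∀ m ∈ S, Even m → m = 2) →
    Dense m₀ (LL κ n) (n ^ 3) S →
      r S Z ∈ S ∧ r S Z ≤ n ^ 3 ∧ (∀ v ∈ T, 2 * v + 3 ≤ r S Z) ∧
      ∀ v ∈ T, r S Z ≤ r S v ∧ r S v < r S Z + Z - 2

/-- NTH: the elements number `v ≥ Z` of `S` in terms of a piece of `S` -/
def S_NTH : Prop := ∀ (S : Set ℕ) (Z v x : ℕ) (U : Finset ℕ), 1 ≤ Z → Z ≤ v → r S Z = x → x ∈ S →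
  2 ≤ x → (∀ m, m ∈ U ↔ m ∈ S ∧ x ≤ m ∧ m < x + Z) → x ≤ r S v → r S v < x + Z →
  v - Z < U.card ∧ r S v = Nat.nth (· ∈ U) (v - Z)

/-- SEP: the index sets `{v, r_v - v - 1, r_v - v + 1}` are disjoint -/
def S_SEP : Prop := ∀ (U T : Finset ℕ) (Z x : ℕ), Z ∈ T → (∀ v ∈ T, Odd v ∧ Z ≤ v ∧ 2 * v + 3 ≤ x) →
  (∀ v ∈ T, ∀ w ∈ T, v < w → v + 4 ≤ w) → (∀ m ∈ U, Odd m ∧ x ≤ m) →
  (∀ v ∈ T, v - Z < U.card ∧ Nat.nth (· ∈ U) (v - Z) < x + Z - 2) →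
  (∀ v ∈ T, ∀ m ∈ ({v, Nat.nth (· ∈ U) (v - Z) - v - 1, Nat.nth (· ∈ U) (v - Z) - v + 1} :
    Finset ℕ), Odd m ∧ Z ≤ m ∧ m < x) ∧
  (∀ v ∈ T, v ≠ Nat.nth (· ∈ U) (v - Z) - v - 1 ∧ v ≠ Nat.nth (· ∈ U) (v - Z) - v + 1) ∧
  ∀ v ∈ T, ∀ w ∈ T, v ≠ w → Disjoint
    ({v, Nat.nth (· ∈ U) (v - Z) - v - 1, Nat.nth (· ∈ U) (v - Z) - v + 1} : Finset ℕ)
    {w, Nat.nth (· ∈ U) (w - Z) - w - 1, Nat.nth (· ∈ U) (w - Z) - w + 1}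

/-- MAINB -/
def S_MAINB : Prop := ∀ (κ : ℝ) (m₀ : ℕ), 0 < κ → 2 ≤ m₀ → ∀ᶠ n : ℕ in atTop,
  ∀ (Ω : Type) [MeasurableSpace Ω] (μ : Measure Ω) [IsProbabilityMeasure μ] (A : ℕ → Set Ω),
    Model κ m₀ μ A → ∀ (T : Finset ℕ) (Z : ℕ), Win κ n T Z →
      μ.real {ω | Dense m₀ (LL κ n) (n ^ 3) (R A ω) ∧ ∀ v ∈ T, ¬ Succ (R A ω) v} ≤
        ((n : ℝ) ^ 3 + 1) * (1 - (3 * Real.log n) ^ (-(3 * κ))) ^ T.card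

/-- FINAL -/
def S_FINAL : Prop := ∀ (κ : ℝ) (m₀ : ℕ), 0 < κ → 2 ≤ m₀ →
  ∀ (Ω : Type) [MeasurableSpace Ω] (μ : Measure Ω) [IsProbabilityMeasure μ] (A : ℕ → Set Ω),
    Model κ m₀ μ A → ∀ᵐ ω ∂μ, ∀ᶠ n : ℕ in atTop,
      Real.exp (Real.log n ^ ((1 : ℝ) / 6)) ≤
        (({k : ℕ | 1 ≤ k ∧ k + 2 < n ∧ Succ (R A ω) (q n k)}.ncard : ℕ) : ℝ)

end Pool.Agent.N538.PQ
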