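import Mathlib
import Pool.Agent.N538.PQ.Stm

/-!
# PQ/FINAL: Borel-Cantelli and assembly (helper907)
-/

set_option autoImplicit false

namespace Pool.Agent.N538.PQ

open Finset MeasureTheory ProbabilityTheory Filter

/-- the numerical bound of a single term -/
theorem FINAL_term {κ x : ℝ} (hκ : 0 < κ) (hx : 1 ≤ x) {K : ℕ} (hK : x ^ (3 * κ + 3) ≤ (K : ℝ)) :
    0 ≤ (1 - (3 * x) ^ (-(3 * κ))) ∧
    (1 - (3 * x) ^ (-(3 * κ))) ^ K ≤ Real.exp (-((3 : ℝ) ^ (-(3 * κ)) * x ^ 3)) := by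
  have hx0 : 0 < x := by linarith
  set d := (3 * x) ^ (-(3 * κ)) with hd
  have hd0 : 0 ≤ d := Real.rpow_nonneg (by positivity) _
  have hd1 : d ≤ 1 := Real.rpow_le_one_of_one_le_of_nonpos (by linarith) (by linarith)
  refine ⟨by linarith, ?_⟩
  have h1 : (1 - d) ^ K ≤ Real.exp (-d) ^ K :=
    pow_le_pow_left₀ (by linarith) (Real.one_sub_le_exp_neg d) K
  refine h1.trans ?_
  rw [← Real.exp_nat_mul, Real.exp_le_exp]
  have h2 : d * x ^ (3 * κ + 3) = (3 : ℝ) ^ (-(3 * κ)) * x ^ 3 := by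
    rw [hd, Real.mul_rpow (by norm_num) hx0.le, mul_assoc, ← Real.rpow_add hx0]
    congr 1
    rw [← Real.rpow_natCast]
    congr 1
    push_cast
    ring
  have h3 : d * x ^ (3 * κ + 3) ≤ d * K := mul_le_mul_of_nonneg_left hK hd0
  nlinarith

theorem FINAL_log : Tendsto (fun n : ℕ => Real.log (n : ℝ)) atTop atTop :=
  Real.tendsto_log_atTop.comp tendsto_natCast_atTop_atTop

/-- the numerical bound of the sum -/
theorem FINAL_num (κ : ℝ) : ∀ᶠ n : ℕ in atTop, 1 ≤ Real.log n ∧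
    (⌈Real.exp (Real.log n ^ ((1 : ℝ) / 6))⌉₊ : ℝ) *
      (((n : ℝ) ^ 3 + 1) * Real.exp (-((3 : ℝ) ^ (-(3 * κ)) * Real.log n ^ 3))) ≤
      1 / (n : ℝ) ^ 2 := by
  have hc : (0 : ℝ) < (3 : ℝ) ^ (-(3 * κ)) := Real.rpow_pos_of_pos (by norm_num) _
  set c := (3 : ℝ) ^ (-(3 * κ)) with hcdef
  filter_upwards [FINAL_log.eventually_ge_atTop 1, FINAL_log.eventually_ge_atTop (7 / c),
    eventually_ge_atTop 4] with n h1 h2 h4
  refine ⟨h1, ?_⟩
  set x := Real.log (n : ℝ) with hx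
  have hn0 : (0 : ℝ) < n := by
    have : 0 < n := by omega
    exact_mod_cast this
  have hn4 : (4 : ℝ) ≤ n := by exact_mod_cast h4
  have hn : Real.exp x = n := Real.exp_log hn0
  have hM : (⌈Real.exp (x ^ ((1 : ℝ) / 6))⌉₊ : ℝ) ≤ 2 * n := by
    have e1 : x ^ ((1 : ℝ) / 6) ≤ x := by
      have := Real.rpow_le_rpow_of_exponent_le h1 (by norm_num : (1 : ℝ) / 6 ≤ 1)
      rwa [Real.rpow_one] at this
    have e2 : Real.exp (x ^ ((1 : ℝ) / 6)) ≤ n := by
      rw [← hn]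
      exact Real.exp_le_exp.2 e1
    have e3 := (Nat.ceil_lt_add_one (Real.exp_pos (x ^ ((1 : ℝ) / 6))).le).le
    linarith
  have hcx : 7 * x ≤ c * x ^ 3 := by
    have e1 : 7 ≤ c * x := by
      have := (div_le_iff₀ hc).1 h2
      linarith
    have e2 : 7 * x ≤ c * x * x := mul_le_mul_of_nonneg_right e1 (by linarith)
    have e3 : c * x * x * 1 ≤ c * x * x * x := mul_le_mul_of_nonneg_left h1 (by positivity)
    nlinarith
  have hexp : Real.exp (-(c * x ^ 3)) ≤ 1 / (n : ℝ) ^ 7 := by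
    have e1 : Real.exp (-(c * x ^ 3)) ≤ Real.exp (-(7 * x)) := Real.exp_le_exp.2 (by linarith)
    refine e1.trans (le_of_eq ?_)
    rw [Real.exp_neg, show (7 : ℝ) * x = ((7 : ℕ) : ℝ) * x by norm_num, Real.exp_nat_mul, hn, one_div]
  calc (⌈Real.exp (x ^ ((1 : ℝ) / 6))⌉₊ : ℝ) * (((n : ℝ) ^ 3 + 1) * Real.exp (-(c * x ^ 3)))
      ≤ (2 * n) * ((2 * (n : ℝ) ^ 3) * (1 / (n : ℝ) ^ 7)) := by
        have e1 : (n : ℝ) ^ 3 + 1 ≤ 2 * (n : ℝ) ^ 3 := by
          have : (1 : ℝ) ≤ (n : ℝ) ^ 3 := one_le_pow₀ (by linarith)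
          linarith
        gcongr
    _ = 4 / (n : ℝ) * (1 / (n : ℝ) ^ 2) := by
        field_simp
        norm_num
    _ ≤ 1 * (1 / (n : ℝ) ^ 2) := by
        refine mul_le_mul_of_nonneg_right ?_ (by positivity)
        rw [div_le_one hn0]
        exact hn4
    _ = 1 / (n : ℝ) ^ 2 := one_mul _

/-- the count -/
theorem FINAL_card {n M : ℕ} {S : Set ℕ} {T : ℕ → Finset ℕ}
    (h : ∀ i < M, ∃ v ∈ T i, Succ S v)
    (hk : ∀ i < M, ∀ v ∈ T i, ∃ k : ℕ, 1 ≤ k ∧ k + 2 < n ∧ q n k = v)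
    (hd : ∀ i < M, ∀ j < i, Disjoint (T i) (T j)) :
    M ≤ {k : ℕ | 1 ≤ k ∧ k + 2 < n ∧ Succ S (q n k)}.ncard := by
  have hex : ∀ i, i < M → ∃ k, 1 ≤ k ∧ k + 2 < n ∧ q n k ∈ T i ∧ Succ S (q n k) := by
    intro i hi
    obtain ⟨v, hv, hs⟩ := h i hi
    obtain ⟨k, k1, k2, k3⟩ := hk i hi v hv
    exact ⟨k, k1, k2, by rw [k3]; exact hv, by rw [k3]; exact hs⟩
  choose! f hf using hex
  have hinj : Set.InjOn f (range M : Set ℕ) := by
    intro i hi j hj hij
    have hi' : i < M := by simpa using hi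
    have hj' : j < M := by simpa using hj
    rcases lt_trichotomy i j with h1 | h1 | h1
    · exfalso
      have h2 := (hf i hi').2.2.1
      have h3 := (hf j hj').2.2.1
      rw [hij] at h2
      exact (Finset.disjoint_left.1 (hd j hj' i h1)) h3 h2
    · exact h1
    · exfalso
      have h2 := (hf i hi').2.2.1
      have h3 := (hf j hj').2.2.1
      rw [← hij] at h3
      exact (Finset.disjoint_left.1 (hd i hi' j h1)) h2 h3
  have hfin : {k : ℕ | 1 ≤ k ∧ k + 2 < n ∧ Succ S (q n k)}.Finite :=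
    (Set.finite_lt_nat n).subset fun k hk => by
      have := hk.2.1
      simp only [Set.mem_ofPred_eq]
      omega
  have hsub : (((range M).image f : Finset ℕ) : Set ℕ) ⊆
      {k : ℕ | 1 ≤ k ∧ k + 2 < n ∧ Succ S (q n k)} := by
    intro k hk
    rw [Finset.mem_coe, mem_image] at hk
    obtain ⟨i, hi, rfl⟩ := hk
    have := hf i (mem_range.1 hi)
    exact ⟨this.1, this.2.1, this.2.2.2⟩
  have h1 := Set.ncard_le_ncard hsub hfin
  rw [Set.ncard_coe_finset, card_image_of_injOn hinj, card_range] at h1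
  exact h1

theorem t_FINAL (h1 : S_WIN) (h2 : S_BLOCK) (h3 : S_MAINB) : S_FINAL := by
  intro κ m₀ hκ hm₀ Ω _ μ _ A hA
  set B : ℕ → Set Ω := fun n => {ω | ¬ (Real.exp (Real.log n ^ ((1 : ℝ) / 6)) ≤
        (({k : ℕ | 1 ≤ k ∧ k + 2 < n ∧ Succ (R A ω) (q n k)}.ncard : ℕ) : ℝ))} with hB
  have hbound : ∀ᶠ n : ℕ in atTop, μ.real (B n) ≤ 2 / (n : ℝ) ^ 2 := by
    filter_upwards [h1 κ hκ, h2 κ m₀ hκ hm₀, h3 κ m₀ hκ hm₀, FINAL_num κ] with n hW hBl hM hN
    obtain ⟨hx1, hN⟩ := hN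
    obtain ⟨T, hT1, hT2, hT3, hT4⟩ := hW
    set M := ⌈Real.exp (Real.log n ^ ((1 : ℝ) / 6))⌉₊ with hMdef
    set D : Set Ω := {ω | ¬ Dense m₀ (LL κ n) (n ^ 3) (R A ω)} with hD
    set E : ℕ → Set Ω := fun i => {ω | Dense m₀ (LL κ n) (n ^ 3) (R A ω) ∧
      ∀ v ∈ T i, ¬ Succ (R A ω) v} with hE
    have hsub : B n ⊆ D ∪ ⋃ i ∈ range M, E i := by
      intro ω hω
      by_contra hcon
      rw [Set.mem_union, not_or] at hcon
      obtain ⟨c1, c2⟩ := hcon
      have c1' : Dense m₀ (LL κ n) (n ^ 3) (R A ω) := by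
        by_contra h
        exact c1 h
      have c3 : ∀ i < M, ∃ v ∈ T i, Succ (R A ω) v := by
        intro i hi
        by_contra h
        push Not at h
        exact c2 (Set.mem_biUnion (mem_coe.2 (mem_range.2 hi)) ⟨c1', h⟩)
      have c4 := FINAL_card c3 hT3 hT4
      refine hω ((Nat.le_ceil _).trans ?_)
      exact_mod_cast c4
    have hx0 : 1 ≤ Real.log (n : ℝ) := hx1
    calc μ.real (B n) ≤ μ.real (D ∪ ⋃ i ∈ range M, E i) := measureReal_mono hsub
      _ ≤ μ.real D + μ.real (⋃ i ∈ range M, E i) := measureReal_union_le _ _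
      _ ≤ μ.real D + ∑ i ∈ range M, μ.real (E i) := by
          gcongr
          exact measureReal_biUnion_finset_le _ _
      _ ≤ 1 / (n : ℝ) ^ 2 + ∑ i ∈ range M, (((n : ℝ) ^ 3 + 1) *
            Real.exp (-((3 : ℝ) ^ (-(3 * κ)) * Real.log n ^ 3))) := by
          refine add_le_add (hBl Ω μ A hA) (sum_le_sum fun i hi => ?_)
          obtain ⟨Z, hZ⟩ := hT1 i (mem_range.1 hi)
          refine (hM Ω μ A hA (T i) Z hZ).trans ?_
          refine mul_le_mul_of_nonneg_left ?_ (by positivity)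
          exact (FINAL_term hκ hx0 (hT2 i (mem_range.1 hi))).2
      _ = 1 / (n : ℝ) ^ 2 + (M : ℝ) * (((n : ℝ) ^ 3 + 1) *
            Real.exp (-((3 : ℝ) ^ (-(3 * κ)) * Real.log n ^ 3))) := by
          rw [sum_const, card_range, nsmul_eq_mul]
      _ ≤ 1 / (n : ℝ) ^ 2 + 1 / (n : ℝ) ^ 2 := by gcongr
      _ = 2 / (n : ℝ) ^ 2 := by ring
  have hsum : Summable fun n => μ.real (B n) := by
    have hg : Summable fun n : ℕ => 2 / (n : ℝ) ^ 2 := by
      have := (Real.summable_one_div_nat_pow (p := 2)).2 (by norm_num)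
      refine (this.mul_left 2).congr fun n => ?_
      ring
    refine Summable.of_norm_bounded_eventually_nat hg ?_
    filter_upwards [hbound] with n hn
    rw [Real.norm_of_nonneg measureReal_nonneg]
    exact hn
  have hfin : (∑' n, μ (B n)) ≠ ⊤ := by
    have h := hsum.tsum_ofReal_ne_top
    simpa [ofReal_measureReal] using h
  filter_upwards [ae_eventually_notMem hfin] with ω hω
  filter_upwards [hω] with n hn
  by_contra h
  exact hn h

end Pool.Agent.N538.PQ
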