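import Pool.Agent.N538.PQ.Stm

/-! Project PQ (helper538), part IND (helper793): independence on disjoint index sets -/

set_option autoImplicit false

namespace Pool.Agent.N538.PQ

open Finset MeasureTheory ProbabilityTheory Filter

/-- the σ-algebra generated by the events `A i`, `i ∈ K` -/
def IND_sg {Ω : Type} (A : ℕ → Set Ω) (K : Set ℕ) : MeasurableSpace Ω :=
  ⨆ i ∈ K, MeasurableSpace.generateFrom {A i}

theorem IND_sg_mem {Ω : Type} (A : ℕ → Set Ω) (K : Set ℕ) (m : ℕ) (hm : m ∈ K) :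
    @MeasurableSet Ω (IND_sg A K) (A m) := by
  have h1 : MeasurableSpace.generateFrom {A m} ≤ IND_sg A K :=
    le_iSup₂ (f := fun i (_ : i ∈ K) => MeasurableSpace.generateFrom {A i}) m hm
  exact h1 _ (MeasurableSpace.measurableSet_generateFrom rfl)

theorem IND_meas_all {Ω : Type} [MeasurableSpace Ω] (A : ℕ → Set Ω) (I : Finset ℕ)
    (h : ∀ m ∈ I, MeasurableSet (A m)) : MeasurableSet {ω | ∀ m ∈ I, ω ∈ A m} := by
  have : {ω | ∀ m ∈ I, ω ∈ A m} = ⋂ m ∈ I, A m := by ext ω; simp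
  rw [this]
  exact Finset.measurableSet_biInter I h

theorem IND_meas_J {Ω : Type} [MeasurableSpace Ω] (A : ℕ → Set Ω) (J S : Finset ℕ)
    (h : ∀ m ∈ J, MeasurableSet (A m)) : MeasurableSet {ω | ∀ m ∈ J, (ω ∈ A m ↔ m ∈ S)} := by
  classical
  have : {ω | ∀ m ∈ J, (ω ∈ A m ↔ m ∈ S)} = ⋂ m ∈ J, (if m ∈ S then A m else (A m)ᶜ) := by
    ext ω
    simp only [Set.mem_setOf_eq, Set.mem_iInter]
    refine forall₂_congr fun m _ => ?_
    by_cases hm : m ∈ S <;> simp [hm]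
  rw [this]
  refine Finset.measurableSet_biInter J fun m hm => ?_
  split_ifs
  · exact h m hm
  · exact (h m hm).compl

theorem IND_meas_T {Ω : Type} [MeasurableSpace Ω] (A : ℕ → Set Ω) (J S T : Finset ℕ) (I : ℕ → Finset ℕ)
    (h : ∀ m ∈ J, MeasurableSet (A m)) (h2 : ∀ v ∈ T, ∀ m ∈ I v, MeasurableSet (A m)) :
    MeasurableSet {ω | (∀ m ∈ J, (ω ∈ A m ↔ m ∈ S)) ∧ ∀ v ∈ T, ¬ ∀ m ∈ I v, ω ∈ A m} := by
  have : {ω | (∀ m ∈ J, (ω ∈ A m ↔ m ∈ S)) ∧ ∀ v ∈ T, ¬ ∀ m ∈ I v, ω ∈ A m} =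
      {ω | ∀ m ∈ J, (ω ∈ A m ↔ m ∈ S)} ∩ ⋂ v ∈ T, {ω | ∀ m ∈ I v, ω ∈ A m}ᶜ := by
    ext ω
    simp
  rw [this]
  exact (IND_meas_J A J S h).inter
    (Finset.measurableSet_biInter T fun v hv => (IND_meas_all A (I v) (h2 v hv)).compl)

theorem t_IND : S_IND := by
  intro Ω _ μ _ A hA hind J S T I hS hJ hI
  classical
  have hle : ∀ i, MeasurableSpace.generateFrom {A i} ≤ (inferInstance : MeasurableSpace Ω) := by
    intro i
    refine MeasurableSpace.generateFrom_le ?_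
    intro t ht
    rw [Set.mem_singleton_iff] at ht
    rw [ht]
    exact hA i
  have hind' : iIndep (fun i => MeasurableSpace.generateFrom {A i}) μ := (iIndepSet_iff_iIndep A μ).1 hind
  have hall : ∀ K : Finset ℕ, μ.real {ω | ∀ m ∈ K, ω ∈ A m} = ∏ m ∈ K, μ.real (A m) := by
    intro K
    have h1 : {ω | ∀ m ∈ K, ω ∈ A m} = ⋂ m ∈ K, A m := by ext ω; simp
    rw [h1, measureReal_def, hind.meas_biInter K, ENNReal.toReal_prod]
    rfl
  induction T using Finset.induction_on with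
  | empty => simp
  | insert v T hv ih =>
    have ih' := ih (fun w hw => hJ w (Finset.mem_insert_of_mem hw))
      (fun w hw w' hw' => hI w (Finset.mem_insert_of_mem hw) w' (Finset.mem_insert_of_mem hw'))
    rw [Finset.prod_insert hv]
    -- the index sets
    set K : Set ℕ := {m | m ∈ J ∨ ∃ w ∈ T, m ∈ I w} with hK
    have hdis : Disjoint K (I v : Set ℕ) := by
      rw [Set.disjoint_left]
      rintro m (hm | ⟨w, hw, hm⟩) hmv
      · exact Finset.disjoint_left.1 (hJ v (Finset.mem_insert_self _ _)) hmv hm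
      · have hne : v ≠ w := fun h => hv (h ▸ hw)
        exact Finset.disjoint_left.1 (hI v (Finset.mem_insert_self _ _) w (Finset.mem_insert_of_mem hw) hne)
          hmv hm
    have hI2 := indep_iSup_of_disjoint hle hind' hdis
    rw [Indep_iff] at hI2
    have hm1 : @MeasurableSet Ω (IND_sg A K)
        {ω | (∀ m ∈ J, (ω ∈ A m ↔ m ∈ S)) ∧ ∀ v ∈ T, ¬ ∀ m ∈ I v, ω ∈ A m} :=
      @IND_meas_T Ω (IND_sg A K) A J S T I (fun m hm => IND_sg_mem A K m (Or.inl hm))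
        (fun w hw m hm => IND_sg_mem A K m (Or.inr ⟨w, hw, hm⟩))
    have hm2 : @MeasurableSet Ω (IND_sg A (I v : Set ℕ)) {ω | ∀ m ∈ I v, ω ∈ A m}ᶜ :=
      (@IND_meas_all Ω (IND_sg A (I v : Set ℕ)) A (I v)
        (fun m hm => IND_sg_mem A _ m (Finset.mem_coe.2 hm))).compl
    have h3 := hI2 _ _ hm1 hm2
    have h4 : {ω | (∀ m ∈ J, (ω ∈ A m ↔ m ∈ S)) ∧ ∀ w ∈ insert v T, ¬ ∀ m ∈ I w, ω ∈ A m} =
        {ω | (∀ m ∈ J, (ω ∈ A m ↔ m ∈ S)) ∧ ∀ v ∈ T, ¬ ∀ m ∈ I v, ω ∈ A m} ∩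
          {ω | ∀ m ∈ I v, ω ∈ A m}ᶜ := by
      ext ω
      simp only [Set.mem_setOf_eq, Set.mem_inter_iff, Set.mem_compl_iff, Finset.forall_mem_insert]
      tauto
    rw [h4, measureReal_def, h3, ENNReal.toReal_mul, ← measureReal_def, ← measureReal_def, ih',
      probReal_compl_eq_one_sub (IND_meas_all A (I v) (fun m _ => hA m)), hall]
    ring

end Pool.Agent.N538.PQ
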