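import Pool.Agent.N538.PQ.Stm

/-!
# PQ/LOC: the position of the elements number `v` of a dense set (helper624)
-/

set_option autoImplicit false

namespace Pool.Agent.N538.PQ

open Finset MeasureTheory ProbabilityTheory Filter
open scoped Classical

/-- Lower bound for the counting function of a dense set. -/
theorem LOC_count_add (P : ℕ → Prop) [DecidablePred P] (b₀ L N : ℕ)
    (h : ∀ b, b₀ ≤ b → b ≤ N → ∃ m ∈ Ioc b (b + L), P m) (b k : ℕ) (hb : b₀ ≤ b)
    (hk : b + k * L ≤ N) :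
    Nat.count P (b + 1) + k ≤ Nat.count P (b + k * L + 1) := by
  induction k with
  | zero => simp
  | succ k ih =>
    have e : b + (k + 1) * L = (b + k * L) + L := by ring
    rw [e] at hk ⊢
    have h1 := ih (by omega)
    obtain ⟨m, hm, hP⟩ := h (b + k * L) (by omega) (by omega)
    rw [mem_Ioc] at hm
    have h2 : Nat.count P (b + k * L + 1) ≤ Nat.count P m := Nat.count_monotone P (by omega)
    have h3 : Nat.count P m < Nat.count P (b + k * L + L + 1) :=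
      Nat.count_strict_mono hP (by omega)
    omega

/-- Upper bound for the counting function. -/
theorem LOC_count_le (S : Set ℕ) (hS : ∀ m ∈ S, Even m → m = 2) (N : ℕ) :
    Nat.count (fun m => m ∈ S) N + Nat.count (fun m => Odd m ∧ m ∉ S) N ≤
      N / 2 + (if 3 ≤ N then 1 else 0) := by
  induction N with
  | zero => simp
  | succ N ih =>
    rw [Nat.count_succ, Nat.count_succ]
    by_cases h1 : N ∈ S
    · have h2 : ¬ (Odd N ∧ N ∉ S) := fun h => h.2 h1
      rw [if_pos h1, if_neg h2]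
      rcases Nat.even_or_odd N with he | ho
      · have h3 := hS N h1 he
        subst h3
        rw [if_neg (by omega)] at ih
        rw [if_pos (by omega)]
        omega
      · obtain ⟨t, ht⟩ := ho
        split_ifs at ih ⊢ <;> omega
    · rw [if_neg h1]
      by_cases ho : Odd N
      · rw [if_pos ⟨ho, h1⟩]
        obtain ⟨t, ht⟩ := ho
        split_ifs at ih ⊢ <;> omega
      · rw [if_neg (fun h => ho h.1)]
        split_ifs at ih ⊢ <;> omega

theorem LOC_det (n m₀ L Z : ℕ) (S : Set ℕ) (hS : ∀ m ∈ S, Even m → m = 2)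
    (hD : Dense m₀ L (n ^ 3) S) (hE : 3 * L + m₀ + 6 ≤ Z) (hZn : Z ≤ 2 * n)
    (hL1 : m₀ + (2 * n + 1) * L ≤ n ^ 2) :
    r S Z ∈ S ∧ r S Z ≤ n ^ 3 ∧ ∀ v, Z ≤ v → v ≤ 2 * n → 2 * ((v - Z) * L) ≤ Z →
      2 * v + 3 ≤ r S Z ∧ r S Z ≤ r S v ∧ r S v < r S Z + Z - 2 := by
  have hn3 : 3 ≤ n := by omega
  have hpow : n ^ 2 + 4 * n + 3 ≤ n ^ 3 := by
    obtain ⟨k, rfl⟩ := Nat.exists_eq_add_of_le hn3
    nlinarith [sq_nonneg k, Nat.zero_le (k ^ 3)]
  have hd1 : ∀ b, m₀ ≤ b → b ≤ n ^ 3 → ∃ m ∈ Ioc b (b + L), (fun m => m ∈ S) m :=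
    fun b h1 h2 => (hD b h1 h2).1
  have hd2 : ∀ b, m₀ ≤ b → b ≤ n ^ 3 → ∃ m ∈ Ioc b (b + L), (fun m => Odd m ∧ m ∉ S) m :=
    fun b h1 h2 => (hD b h1 h2).2
  have hc : 2 * n + 1 ≤ Nat.count (fun m => m ∈ S) (n ^ 2 + 1) := by
    have h1 := LOC_count_add (fun m => m ∈ S) m₀ L (n ^ 3) hd1 m₀ (2 * n + 1) le_rfl (by omega)
    have h2 : Nat.count (fun m => m ∈ S) (m₀ + (2 * n + 1) * L + 1) ≤
        Nat.count (fun m => m ∈ S) (n ^ 2 + 1) := Nat.count_monotone _ (by omega)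
    omega
  have hv : ∀ v, v ≤ 2 * n → r S v ≤ n ^ 2 ∧ r S v ∈ S ∧
      Nat.count (fun m => m ∈ S) (r S v) = v - 1 := by
    intro v hv
    have h1 : v - 1 < Nat.count (fun m => m ∈ S) (n ^ 2 + 1) := by omega
    have h2 : ∀ hf : (Set.ofPred (fun m => m ∈ S)).Finite, v - 1 < hf.toFinset.card :=
      fun hf => h1.trans_le (Nat.count_le_card hf _)
    have h3 : r S v < n ^ 2 + 1 := Nat.nth_lt_of_lt_count h1
    refine ⟨by omega, ?_, ?_⟩
    · exact Nat.nth_mem (p := fun m => m ∈ S) (v - 1) h2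
    · exact Nat.count_nth (p := fun m => m ∈ S) h2
  obtain ⟨hx1, hx2, hx3⟩ := hv Z hZn
  have hx4 : Nat.count (fun m => m ∈ S) (r S Z + 1) = Z := by
    rw [Nat.count_succ, if_pos hx2, hx3]
    omega
  refine ⟨hx2, by omega, ?_⟩
  intro v hv1 hv2 hv3
  obtain ⟨hy1, hy2, hy3⟩ := hv v hv2
  have hb : 2 * v + 3 ≤ r S Z := by
    by_contra hcon
    have h1 : Nat.count (fun m => m ∈ S) (r S Z + 1) ≤
        Nat.count (fun m => m ∈ S) (2 * v + 3) := Nat.count_monotone _ (by omega)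
    have h2 := LOC_count_le S hS (2 * v + 3)
    rw [if_pos (by omega)] at h2
    have e : (v - Z + 3) * L = (v - Z) * L + 3 * L := by ring
    have h3 := LOC_count_add (fun m => Odd m ∧ m ∉ S) m₀ L (n ^ 3) hd2 m₀ (v - Z + 3) le_rfl
      (by omega)
    have h4 : Nat.count (fun m => Odd m ∧ m ∉ S) (m₀ + (v - Z + 3) * L + 1) ≤
        Nat.count (fun m => Odd m ∧ m ∉ S) (2 * v + 3) := Nat.count_monotone _ (by omega)
    omega
  refine ⟨hb, ?_, ?_⟩
  · by_contra hcon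
    have h1 : Nat.count (fun m => m ∈ S) (r S v) < Nat.count (fun m => m ∈ S) (r S Z) :=
      Nat.count_strict_mono hy2 (by omega)
    omega
  · have h1 := LOC_count_add (fun m => m ∈ S) m₀ L (n ^ 3) hd1 (r S Z) (v - Z) (by omega)
      (by omega)
    have h2 : Nat.count (fun m => m ∈ S) (r S Z + (v - Z) * L + 1) ≤
        Nat.count (fun m => m ∈ S) (r S Z + Z - 2) := Nat.count_monotone _ (by omega)
    have h3 : v - 1 < Nat.count (fun m => m ∈ S) (r S Z + Z - 2) := by omega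
    exact Nat.nth_lt_of_lt_count h3

theorem t_LOC : S_LOC := by
  intro κ m₀ hκ hm₀
  have hl : (fun x : ℝ => Real.log x ^ (κ + 2)) =o[atTop] fun x : ℝ => x ^ ((1 : ℝ) / 2) :=
    isLittleO_log_rpow_rpow_atTop (κ + 2) (by norm_num)
  have h1 : ∀ᶠ n : ℕ in atTop, Real.log n ^ (κ + 2) ≤ (1 / 6) * Real.sqrt n := by
    have h := tendsto_natCast_atTop_atTop (R := ℝ) |>.eventually
      (hl.bound (show (0 : ℝ) < 1 / 6 by norm_num))
    filter_upwards [h] with n hn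
    rw [Real.norm_eq_abs, Real.norm_eq_abs, ← Real.sqrt_eq_rpow, abs_of_nonneg (Real.sqrt_nonneg _)]
      at hn
    exact (le_abs_self _).trans hn
  have h2 : ∀ᶠ n : ℕ in atTop, 2 * ((m₀ : ℝ) + 9) ≤ Real.sqrt n :=
    (Real.tendsto_sqrt_atTop.comp tendsto_natCast_atTop_atTop).eventually_ge_atTop _
  have h3 : ∀ᶠ n : ℕ in atTop, 2 ≤ Real.log n :=
    (Real.tendsto_log_atTop.comp tendsto_natCast_atTop_atTop).eventually_ge_atTop 2
  filter_upwards [h1, h2, h3] with n h1 h2 h3 T Z hW S hS hD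
  have hA : 1 ≤ Real.log n ^ (κ + 2) := Real.one_le_rpow (by linarith) (by linarith)
  have hLL : (LL κ n : ℝ) ≤ Real.log n ^ (κ + 2) + 1 :=
    (Nat.ceil_lt_add_one (by linarith)).le
  have hE0 : 3 * (LL κ n : ℝ) + m₀ + 6 ≤ Real.sqrt n := by linarith
  have hZ : Real.sqrt n ≤ Z := hW.low Z hW.mem
  have hE : 3 * LL κ n + m₀ + 6 ≤ Z := by
    have : ((3 * LL κ n + m₀ + 6 : ℕ) : ℝ) ≤ Z := by
      push_cast
      linarith
    exact_mod_cast this
  have hsn : 3 * LL κ n + m₀ + 6 ≤ n := by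
    have h4 : Real.sqrt n ≤ n := by
      have h5 : Real.sqrt n * Real.sqrt n = n := Real.mul_self_sqrt (Nat.cast_nonneg n)
      have h6 : (1 : ℝ) ≤ Real.sqrt n := by
        have : (0 : ℝ) ≤ m₀ := Nat.cast_nonneg m₀
        linarith
      nlinarith
    have : ((3 * LL κ n + m₀ + 6 : ℕ) : ℝ) ≤ n := by
      push_cast
      linarith
    exact_mod_cast this
  have hL1 : m₀ + (2 * n + 1) * LL κ n ≤ n ^ 2 := by
    have h5 : n * (3 * LL κ n + m₀ + 6) ≤ n * n := Nat.mul_le_mul_left n hsn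
    have h6 : 1 ≤ n := by omega
    have h7 : LL κ n ≤ n * LL κ n := Nat.le_mul_of_pos_left _ h6
    have h8 : m₀ ≤ n * m₀ := Nat.le_mul_of_pos_left _ h6
    nlinarith
  obtain ⟨k1, k2, k3⟩ := LOC_det n m₀ (LL κ n) Z S hS hD hE (hW.high Z hW.mem) hL1
  have hmul : ∀ v ∈ T, 2 * ((v - Z) * LL κ n) ≤ Z := by
    intro v hv
    have hZv := hW.least v hv
    have hs := hW.short v hv
    have hpow : Real.log n ^ (κ + 4) = Real.log n ^ (κ + 2) * Real.log n ^ 2 := by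
      rw [show κ + 4 = (κ + 2) + (2 : ℕ) by push_cast; ring,
        Real.rpow_add_natCast (by linarith)]
    set A := Real.log n ^ (κ + 2) with hAdef
    set ℓ := Real.log n with hℓ
    have hℓ2 : 4 ≤ ℓ ^ 2 := by nlinarith
    have hsub : ((v - Z : ℕ) : ℝ) ≤ Z / (A * ℓ ^ 2) := by
      rw [Nat.cast_sub hZv, ← hpow]
      linarith
    have hL2 : (LL κ n : ℝ) ≤ 2 * A := by linarith
    have hZ0 : (0 : ℝ) ≤ Z := Nat.cast_nonneg Z
    have hA0 : 0 < A := by linarith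
    have h5 : ((v - Z : ℕ) : ℝ) * (LL κ n : ℝ) ≤ Z / (A * ℓ ^ 2) * (2 * A) :=
      mul_le_mul hsub hL2 (Nat.cast_nonneg _) (by positivity)
    have h6 : Z / (A * ℓ ^ 2) * (2 * A) = 2 * Z / ℓ ^ 2 := by
      field_simp
    have h7 : 2 * (Z : ℝ) / ℓ ^ 2 ≤ Z / 2 := by
      rw [div_le_div_iff₀ (by positivity) (by norm_num)]
      nlinarith
    have h8 : ((2 * ((v - Z) * LL κ n) : ℕ) : ℝ) ≤ Z := by
      push_cast
      linarith
    exact_mod_cast h8
  refine ⟨k1, k2, fun v hv => ?_, fun v hv => ?_⟩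
  · exact (k3 v (hW.least v hv) (hW.high v hv) (hmul v hv)).1
  · exact (k3 v (hW.least v hv) (hW.high v hv) (hmul v hv)).2

end Pool.Agent.N538.PQ
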