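import Pool.Agent.N538.PQ.Stm

set_option autoImplicit false

namespace Pool.Agent.N538.PQ

open Finset MeasureTheory ProbabilityTheory Filter

/-- the pattern event -/
def MAINB_P {Ω : Type} (A : ℕ → Set Ω) (J U : Finset ℕ) : Set Ω := {ω | ∀ m ∈ J, (ω ∈ A m ↔ m ∈ U)}

/-- the index set of `v` -/
noncomputable def MAINB_I (U : Finset ℕ) (Z v : ℕ) : Finset ℕ :=
  {v, Nat.nth (· ∈ U) (v - Z) - v - 1, Nat.nth (· ∈ U) (v - Z) - v + 1}

/-- the conditions on a pattern -/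
def MAINB_C (T : Finset ℕ) (Z x : ℕ) (U : Finset ℕ) : Prop :=
  (∀ m ∈ U, Odd m ∧ x ≤ m) ∧ (∀ v ∈ T, 2 * v + 3 ≤ x) ∧
  (∀ v ∈ T, v - Z < U.card ∧ Nat.nth (· ∈ U) (v - Z) < x + Z - 2)

lemma MAINB_meas {Ω : Type} [MeasurableSpace Ω] (A : ℕ → Set Ω) (hA : ∀ m, MeasurableSet (A m)) (J U : Finset ℕ) :
    MeasurableSet (MAINB_P A J U) := by
  have h : MAINB_P A J U = ⋂ m ∈ J, {ω | ω ∈ A m ↔ m ∈ U} := by
    ext ω
    simp [MAINB_P]
  rw [h]
  refine Finset.measurableSet_biInter _ fun m _ => ?_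
  by_cases hm : m ∈ U
  · have h2 : {ω | ω ∈ A m ↔ m ∈ U} = A m := by
      ext ω
      simp [hm]
    rw [h2]
    exact hA m
  · have h2 : {ω | ω ∈ A m ↔ m ∈ U} = (A m)ᶜ := by
      ext ω
      simp [hm]
    rw [h2]
    exact (hA m).compl

lemma MAINB_sum {Ω : Type} [MeasurableSpace Ω] (μ : Measure Ω) [IsProbabilityMeasure μ] (A : ℕ → Set Ω)
    (hA : ∀ m, MeasurableSet (A m)) (J : Finset ℕ) (W : Finset (Finset ℕ)) (hW : ∀ U ∈ W, U ⊆ J) :
    ∑ U ∈ W, μ.real (MAINB_P A J U) ≤ 1 := by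
  rw [← measureReal_biUnion_finset (μ := μ) (s := W) (f := fun U => MAINB_P A J U)]
  · exact measureReal_le_one
  · intro U hU V hV hUV
    refine Set.disjoint_left.2 fun ω h1 h2 => hUV ?_
    ext m
    constructor
    · intro hm
      exact (h2 m (hW U hU hm)).1 ((h1 m (hW U hU hm)).2 hm)
    · intro hm
      exact (h1 m (hW V hV hm)).1 ((h2 m (hW V hV hm)).2 hm)
  · intro U _
    exact MAINB_meas A hA J U

/-- one pattern -/
lemma MAINB_one (h1 : S_IND) (h4 : S_SEP) {κ : ℝ} {m₀ n : ℕ} (hκ : 0 < κ) (hn1 : (m₀ : ℝ) + 2 ≤ Real.sqrt n)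
    (hm₀ : 2 ≤ m₀) (hn3 : 1 ≤ 3 * Real.log n) {Ω : Type} [MeasurableSpace Ω] (μ : Measure Ω) [IsProbabilityMeasure μ]
    (A : ℕ → Set Ω) (hM : Model κ m₀ μ A) (T : Finset ℕ) (Z : ℕ) (hW : Win κ n T Z) (x : ℕ) (hx : x ≤ n ^ 3)
    (U : Finset ℕ) (hU : U ⊆ Ico x (x + Z)) (hC : MAINB_C T Z x U) :
    μ.real {ω | (∀ m ∈ Ico x (x + Z), (ω ∈ A m ↔ m ∈ U)) ∧ ∀ v ∈ T, ¬ ∀ m ∈ MAINB_I U Z v, ω ∈ A m} ≤
      μ.real (MAINB_P A (Ico x (x + Z)) U) * (1 - (3 * Real.log n) ^ (-(3 * κ))) ^ T.card := by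
  obtain ⟨hodd, h2v, hnth⟩ := hC
  have hsep := h4 U T Z x hW.mem (fun v hv => ⟨hW.odd v hv, hW.least v hv, h2v v hv⟩) hW.gap hodd hnth
  obtain ⟨s1, -, s3⟩ := hsep
  have hdis : ∀ v ∈ T, Disjoint (MAINB_I U Z v) (Ico x (x + Z)) := by
    intro v hv
    rw [Finset.disjoint_left]
    intro m hm hmJ
    have := (s1 v hv m hm).2.2
    rw [mem_Ico] at hmJ
    omega
  have hind := h1 Ω μ A hM.meas hM.indep (Ico x (x + Z)) U T (MAINB_I U Z) hU hdis s3
  rw [hind]
  apply mul_le_mul_of_nonneg_left _ measureReal_nonneg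
  rw [← prod_const]
  have hδ : (3 * Real.log n) ^ (-(3 * κ)) = ((3 * Real.log n) ^ (-κ)) ^ 3 := by
    rw [← Real.rpow_natCast, ← Real.rpow_mul (by linarith)]
    congr 1
    push_cast
    ring
  have hc0 : 0 ≤ (3 * Real.log n) ^ (-κ) := Real.rpow_nonneg (by linarith) _
  have hc1 : (3 * Real.log n) ^ (-κ) ≤ 1 := Real.rpow_le_one_of_one_le_of_nonpos hn3 (by linarith)
  refine prod_le_prod (fun v _ => ?_) fun v hv => ?_
  · have : ∏ m ∈ MAINB_I U Z v, μ.real (A m) ≤ 1 :=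
      prod_le_one (fun m _ => measureReal_nonneg) fun m _ => measureReal_le_one
    linarith
  · have hcard : (MAINB_I U Z v).card ≤ 3 := card_le_three
    have hlow : ∀ m ∈ MAINB_I U Z v, (3 * Real.log n) ^ (-κ) ≤ μ.real (A m) := by
      intro m hm
      obtain ⟨m1, m2, m3⟩ := s1 v hv m hm
      have hZ : Real.sqrt n ≤ (Z : ℝ) := hW.low Z hW.mem
      have hZm : (Z : ℝ) ≤ m := by exact_mod_cast m2
      have hm0 : (m₀ : ℝ) + 2 ≤ m := by linarith
      have hm0' : m₀ ≤ m := by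
        have : (m₀ : ℝ) ≤ m := by linarith
        exact_mod_cast this
      have hmpos : (1 : ℝ) < m := by
        have : (2 : ℝ) ≤ m₀ := by exact_mod_cast hm₀
        linarith
      have hn0 : 0 < n := by
        by_contra hcon
        have : n = 0 := by omega
        subst this
        simp at hn3
        linarith
      have hlog : Real.log m ≤ 3 * Real.log n := by
        have h5 : (m : ℝ) ≤ (n : ℝ) ^ 3 := by
          have : m ≤ n ^ 3 := by omega
          exact_mod_cast this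
        have h6 := Real.log_le_log (by linarith) h5
        rw [Real.log_pow] at h6
        exact_mod_cast h6
      exact (Real.rpow_le_rpow_of_nonpos (Real.log_pos hmpos) hlog (by linarith)).trans (hM.low m hm0' m1)
    have hprod : (3 * Real.log n) ^ (-(3 * κ)) ≤ ∏ m ∈ MAINB_I U Z v, μ.real (A m) := by
      calc (3 * Real.log n) ^ (-(3 * κ)) = ((3 * Real.log n) ^ (-κ)) ^ 3 := hδ
        _ ≤ ((3 * Real.log n) ^ (-κ)) ^ (MAINB_I U Z v).card := pow_le_pow_of_le_one hc0 hc1 hcard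
        _ = ∏ _m ∈ MAINB_I U Z v, (3 * Real.log n) ^ (-κ) := by rw [prod_const]
        _ ≤ ∏ m ∈ MAINB_I U Z v, μ.real (A m) := prod_le_prod (fun _ _ => hc0) hlow
    linarith

open scoped Classical in
/-- MAINB -/
theorem t_MAINB (h1 : S_IND) (h2 : S_LOC) (h3 : S_NTH) (h4 : S_SEP) : S_MAINB := by
  intro κ m₀ hκ hm₀
  have e1 : ∀ᶠ n : ℕ in atTop, (m₀ : ℝ) + 2 ≤ Real.sqrt n := by
    have : Tendsto (fun n : ℕ => Real.sqrt n) atTop atTop :=
      Real.tendsto_sqrt_atTop.comp tendsto_natCast_atTop_atTop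
    exact this.eventually_ge_atTop _
  have e2 : ∀ᶠ n : ℕ in atTop, (1 : ℝ) ≤ 3 * Real.log n := by
    have : Tendsto (fun n : ℕ => Real.log n) atTop atTop :=
      Real.tendsto_log_atTop.comp tendsto_natCast_atTop_atTop
    filter_upwards [this.eventually_ge_atTop 1] with n hn
    linarith
  filter_upwards [h2 κ m₀ hκ hm₀, e1, e2] with n hloc hn1 hn3 Ω _ μ _ A hM T Z hW
  obtain ⟨δ, hδ⟩ : ∃ δ, δ = (1 - (3 * Real.log n) ^ (-(3 * κ))) ^ T.card := ⟨_, rfl⟩
  have hZ4 : 4 ≤ Z := by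
    have h5 : Real.sqrt n ≤ (Z : ℝ) := hW.low Z hW.mem
    have h6 : (2 : ℝ) ≤ m₀ := by exact_mod_cast hm₀
    have : (4 : ℝ) ≤ Z := by linarith
    exact_mod_cast this
  have hδ0 : 0 ≤ δ := by
    rw [hδ]
    apply pow_nonneg
    have : (3 * Real.log n) ^ (-(3 * κ)) ≤ 1 := Real.rpow_le_one_of_one_le_of_nonpos hn3 (by linarith)
    linarith
  let F : ℕ → Finset ℕ → Set Ω := fun x U =>
    {ω | (∀ m ∈ Ico x (x + Z), (ω ∈ A m ↔ m ∈ U)) ∧ ∀ v ∈ T, ¬ ∀ m ∈ MAINB_I U Z v, ω ∈ A m}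
  let W : ℕ → Finset (Finset ℕ) := fun x => ((Ico x (x + Z)).powerset).filter (fun U => MAINB_C T Z x U)
  have hsub : {ω | Dense m₀ (LL κ n) (n ^ 3) (R A ω) ∧ ∀ v ∈ T, ¬ Succ (R A ω) v} ⊆
      ⋃ x ∈ range (n ^ 3 + 1), ⋃ U ∈ W x, F x U := by
    rintro ω ⟨hD, hno⟩
    have heven : ∀ m ∈ R A ω, Even m → m = 2 := by
      intro m hm he
      by_contra hne
      have h5 := hM.even m he hne
      have h6 : ω ∈ A m := hm
      rw [h5] at h6
      exact h6
    obtain ⟨l1, l2, l3, l4⟩ := hloc T Z hW (R A ω) heven hD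
    have hx5 : 2 ≤ r (R A ω) Z := by
      have := l3 Z hW.mem
      omega
    obtain ⟨x, hx⟩ : ∃ x, x = r (R A ω) Z := ⟨_, rfl⟩
    rw [← hx] at l1 l2 l3 hx5
    obtain ⟨U, hU⟩ : ∃ U : Finset ℕ, U = (Ico x (x + Z)).filter (fun m => m ∈ R A ω) := ⟨_, rfl⟩
    have hUm : ∀ m, m ∈ U ↔ m ∈ R A ω ∧ x ≤ m ∧ m < x + Z := by
      intro m
      rw [hU, mem_filter, mem_Ico]
      tauto
    have hnth : ∀ v ∈ T, v - Z < U.card ∧ r (R A ω) v = Nat.nth (· ∈ U) (v - Z) := by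
      intro v hv
      obtain ⟨a1, a2⟩ := l4 v hv
      rw [← hx] at a1 a2
      exact h3 (R A ω) Z v x U (by omega) (hW.least v hv) hx.symm l1 hx5 hUm a1 (by omega)
    have hC : MAINB_C T Z x U := by
      refine ⟨fun m hm => ?_, l3, fun v hv => ?_⟩
      · obtain ⟨a1, a2, a3⟩ := (hUm m).1 hm
        refine ⟨?_, a2⟩
        by_contra hne
        rw [Nat.not_odd_iff_even] at hne
        have h5 := heven m a1 hne
        have h6 := l3 Z hW.mem
        omega
      · obtain ⟨a1, a2⟩ := hnth v hv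
        refine ⟨a1, ?_⟩
        rw [← a2]
        have h5 := (l4 v hv).2
        rw [← hx] at h5
        exact h5
    simp only [Set.mem_iUnion]
    refine ⟨x, mem_range.2 (by omega), U, ?_, ?_, ?_⟩
    · simp only [W, mem_filter, mem_powerset]
      exact ⟨by rw [hU]; exact filter_subset _ _, hC⟩
    · intro m hm
      rw [mem_Ico] at hm
      rw [hUm]
      exact ⟨fun h => ⟨h, hm.1, hm.2⟩, fun h => h.1⟩
    · intro v hv hall
      apply hno v hv
      obtain ⟨a1, a2⟩ := hnth v hv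
      refine ⟨hall v (by simp [MAINB_I]), ?_, ?_⟩
      · rw [a2]
        exact hall _ (by simp [MAINB_I])
      · rw [a2]
        exact hall _ (by simp [MAINB_I])
  calc μ.real {ω | Dense m₀ (LL κ n) (n ^ 3) (R A ω) ∧ ∀ v ∈ T, ¬ Succ (R A ω) v}
      ≤ μ.real (⋃ x ∈ range (n ^ 3 + 1), ⋃ U ∈ W x, F x U) := measureReal_mono hsub (measure_ne_top μ _)
    _ ≤ ∑ x ∈ range (n ^ 3 + 1), μ.real (⋃ U ∈ W x, F x U) := measureReal_biUnion_finset_le _ _
    _ ≤ ∑ x ∈ range (n ^ 3 + 1), δ := by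
        apply sum_le_sum
        intro x hx
        rw [mem_range] at hx
        calc μ.real (⋃ U ∈ W x, F x U) ≤ ∑ U ∈ W x, μ.real (F x U) := measureReal_biUnion_finset_le _ _
          _ ≤ ∑ U ∈ W x, μ.real (MAINB_P A (Ico x (x + Z)) U) * δ := by
              apply sum_le_sum
              intro U hU
              simp only [W, mem_filter, mem_powerset] at hU
              rw [hδ]
              exact MAINB_one h1 h4 hκ hn1 hm₀ hn3 μ A hM T Z hW x (by omega) U hU.1 hU.2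
          _ = (∑ U ∈ W x, μ.real (MAINB_P A (Ico x (x + Z)) U)) * δ := by rw [sum_mul]
          _ ≤ 1 * δ := by
              apply mul_le_mul_of_nonneg_right _ hδ0
              apply MAINB_sum μ A hM.meas
              intro U hU
              simp only [W, mem_filter, mem_powerset] at hU
              exact hU.1
          _ = δ := one_mul δ
    _ = ((n : ℝ) ^ 3 + 1) * (1 - (3 * Real.log n) ^ (-(3 * κ))) ^ T.card := by
        rw [sum_const, card_range, nsmul_eq_mul, hδ]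
        push_cast
        ring

end Pool.Agent.N538.PQ
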