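import Pool.Agent.N538.PQ.Stm

/-!
# Project PQ: NTH and SEP
-/

set_option autoImplicit false

namespace Pool.Agent.N538.PQ

open Finset MeasureTheory ProbabilityTheory Filter

theorem NTH_genuine {p : ℕ → Prop} {n : ℕ} (h : Nat.nth p n ≠ 0) :
    ∀ hf : ({m | p m} : Set ℕ).Finite, n < hf.toFinset.card := by
  intro hf
  by_contra hcon
  apply h
  rw [Nat.nth_eq_zero]
  exact Or.inr ⟨hf, not_lt.1 hcon⟩

theorem NTH_toFinset (U : Finset ℕ) (hf : ({m | m ∈ U} : Set ℕ).Finite) : hf.toFinset = U := by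
  ext m
  simp

/-- NTH -/
theorem t_NTH : S_NTH := by
  classical
  intro S Z v x U hZ hv hx hxS hx2 hU h1 h2
  obtain ⟨y, hy⟩ : ∃ y, y = r S v := ⟨_, rfl⟩
  rw [← hy] at h1 h2 ⊢
  have hx0 : Nat.nth (· ∈ S) (Z - 1) ≠ 0 := by
    have : Nat.nth (· ∈ S) (Z - 1) = x := hx
    omega
  have hy0 : Nat.nth (· ∈ S) (v - 1) ≠ 0 := by
    have : Nat.nth (· ∈ S) (v - 1) = y := hy.symm
    omega
  have c1 : Nat.count (· ∈ S) x = Z - 1 := by
    have := Nat.count_nth (NTH_genuine hx0)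
    have h3 : Nat.nth (· ∈ S) (Z - 1) = x := hx
    rwa [h3] at this
  have c2 : Nat.count (· ∈ S) y = v - 1 := by
    have := Nat.count_nth (NTH_genuine hy0)
    have h3 : Nat.nth (· ∈ S) (v - 1) = y := hy.symm
    rwa [h3] at this
  have hyS : y ∈ S := by
    have := Nat.nth_mem (v - 1) (NTH_genuine hy0)
    have h3 : Nat.nth (· ∈ S) (v - 1) = y := hy.symm
    rwa [h3] at this
  have hyU : y ∈ U := (hU y).2 ⟨hyS, h1, h2⟩
  have c3 : Nat.count (· ∈ U) y = v - Z := by
    rw [Nat.count_eq_card_filter_range] at c1 c2 ⊢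
    have e : (range y).filter (· ∈ S) = (range x).filter (· ∈ S) ∪ (range y).filter (· ∈ U) := by
      ext m
      simp only [mem_union, mem_filter, mem_range, hU]
      constructor
      · rintro ⟨h3, h4⟩
        rcases lt_or_ge m x with h5 | h5
        · exact Or.inl ⟨h5, h4⟩
        · exact Or.inr ⟨h3, h4, h5, by omega⟩
      · rintro (⟨h3, h4⟩ | ⟨h3, h4, -⟩)
        · exact ⟨by omega, h4⟩
        · exact ⟨h3, h4⟩
    have hd : Disjoint ((range x).filter (· ∈ S)) ((range y).filter (· ∈ U)) := by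
      rw [Finset.disjoint_left]
      intro m h3 h4
      rw [mem_filter, mem_range] at h3 h4
      have := (hU m).1 h4.2
      omega
    have h3 := congrArg Finset.card e
    rw [card_union_of_disjoint hd] at h3
    omega
  have hfin : ({m | m ∈ U} : Set ℕ).Finite := U.finite_toSet
  refine ⟨?_, ?_⟩
  · have h3 := Nat.count_lt_card hfin hyU
    rw [NTH_toFinset, c3] at h3
    exact h3
  · rw [← c3]
    exact (Nat.nth_count hyU).symm

theorem SEP_mem {U : Finset ℕ} {i : ℕ} (h : i < U.card) : Nat.nth (· ∈ U) i ∈ U := by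
  have hfin : ({m | m ∈ U} : Set ℕ).Finite := U.finite_toSet
  exact Nat.nth_mem_of_lt_card hfin (by rw [NTH_toFinset]; exact h)

theorem SEP_gap {U : Finset ℕ} (ho : ∀ m ∈ U, Odd m) (i : ℕ) : ∀ j : ℕ, i + j < U.card →
    Nat.nth (· ∈ U) i + 2 * j ≤ Nat.nth (· ∈ U) (i + j)
  | 0, _ => by simp
  | j + 1, h => by
      have ih := SEP_gap ho i j (by omega)
      have hfin : ({m | m ∈ U} : Set ℕ).Finite := U.finite_toSet
      have h1 : Nat.nth (· ∈ U) (i + j) < Nat.nth (· ∈ U) (i + (j + 1)) :=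
        Nat.nth_lt_nth_of_lt_card hfin (by omega) (by rw [NTH_toFinset]; exact h)
      obtain ⟨a, ha⟩ := ho _ (SEP_mem (U := U) (i := i + j) (by omega))
      obtain ⟨b, hb⟩ := ho _ (SEP_mem h)
      omega

/-- SEP -/
theorem t_SEP : S_SEP := by
  intro U T Z x hZ hT hg hU hX
  have key : ∀ v ∈ T, Odd (Nat.nth (· ∈ U) (v - Z)) ∧ x ≤ Nat.nth (· ∈ U) (v - Z) :=
    fun v hv => hU _ (SEP_mem (hX v hv).1)
  refine ⟨?_, ?_, ?_⟩
  · intro v hv m hm
    obtain ⟨⟨a, ha⟩, k2⟩ := key v hv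
    obtain ⟨⟨b, hb⟩, t2, t3⟩ := hT v hv
    have h3 := (hX v hv).2
    generalize Nat.nth (· ∈ U) (v - Z) = X at *
    simp only [mem_insert, mem_singleton] at hm
    rcases hm with rfl | rfl | rfl
    · exact ⟨⟨b, hb⟩, t2, by omega⟩
    · exact ⟨⟨a - b - 1, by omega⟩, by omega, by omega⟩
    · exact ⟨⟨a - b, by omega⟩, by omega, by omega⟩
  · intro v hv
    obtain ⟨-, k2⟩ := key v hv
    obtain ⟨-, t2, t3⟩ := hT v hv
    omega
  · have main : ∀ v ∈ T, ∀ w ∈ T, v < w → Disjoint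
        ({v, Nat.nth (· ∈ U) (v - Z) - v - 1, Nat.nth (· ∈ U) (v - Z) - v + 1} : Finset ℕ)
        {w, Nat.nth (· ∈ U) (w - Z) - w - 1, Nat.nth (· ∈ U) (w - Z) - w + 1} := by
      intro v hv w hw hvw
      have h4 := hg v hv w hw hvw
      obtain ⟨-, k2⟩ := key v hv
      obtain ⟨-, t2, t3⟩ := hT v hv
      obtain ⟨-, k2'⟩ := key w hw
      obtain ⟨-, t2', t3'⟩ := hT w hw
      have h5 := SEP_gap (fun m hm => (hU m hm).1) (v - Z) (w - v) (by
        have := (hX w hw).1
        omega)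
      have e : v - Z + (w - v) = w - Z := by omega
      rw [e] at h5
      generalize Nat.nth (· ∈ U) (v - Z) = X at *
      generalize Nat.nth (· ∈ U) (w - Z) = Y at *
      rw [Finset.disjoint_left]
      intro m hm hm'
      simp only [mem_insert, mem_singleton] at hm hm'
      omega
    intro v hv w hw hvw
    rcases lt_or_gt_of_ne hvw with h | h
    · exact main v hv w hw h
    · exact (main w hw v hv h).symm

end Pool.Agent.N538.PQ
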