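import Pool.Agent.N538.PQ.Stm

/-!
Project PQ (helper538), file PRIMES (helper971): primes between `√n` and `n / 5`, multiples of
squares of large primes.
-/

set_option autoImplicit false

namespace Pool.Agent.N538.PQ

open Finset MeasureTheory ProbabilityTheory Filter

theorem PRIMES_root {n : ℕ} (hn : 192 ^ 4 ≤ n) : ∃ u : ℝ, 192 ≤ u ∧ u ^ 2 = Real.sqrt n ∧
    u ^ 4 = n ∧ Real.log n ≤ 4 * u := by
  obtain ⟨u, hu⟩ : ∃ u : ℝ, u = Real.sqrt (Real.sqrt n) := ⟨_, rfl⟩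
  have hu2 : u ^ 2 = Real.sqrt n := by rw [hu, Real.sq_sqrt (Real.sqrt_nonneg _)]
  have hu4 : u ^ 4 = n := by
    have h1 : u ^ 4 = (u ^ 2) ^ 2 := by ring
    rw [h1, hu2, Real.sq_sqrt (Nat.cast_nonneg n)]
  have hu0 : 192 ≤ u := by
    rw [hu]
    apply Real.le_sqrt_of_sq_le
    apply Real.le_sqrt_of_sq_le
    have h1 : (192 : ℝ) ^ 4 ≤ (n : ℝ) := by exact_mod_cast hn
    have h3 : ((192 : ℝ) ^ 2) ^ 2 = 192 ^ 4 := by norm_num
    rw [h3]
    exact h1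
  refine ⟨u, hu0, hu2, hu4, ?_⟩
  rw [← hu4, Real.log_pow]
  have h1 := Real.log_le_sub_one_of_pos (by linarith : 0 < u)
  push_cast
  linarith

theorem PRIMES_log {N : ℕ} (hN : 10000 ≤ N) :
    (N : ℝ) / 2 ≤ N * Real.log 2 - Real.log (N + 1) := by
  have hN' : (10000 : ℝ) ≤ N := by exact_mod_cast hN
  obtain ⟨v, hv⟩ : ∃ v : ℝ, v = Real.sqrt (N + 1) := ⟨_, rfl⟩
  have hv2 : v ^ 2 = N + 1 := by rw [hv, Real.sq_sqrt (by linarith)]
  have hv0 : 100 ≤ v := by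
    rw [hv]
    apply Real.le_sqrt_of_sq_le
    linarith
  have h1 : Real.log (N + 1) = 2 * Real.log v := by
    rw [← hv2, Real.log_pow]
    push_cast
    ring
  have h2 := Real.log_le_sub_one_of_pos (by linarith : 0 < v)
  have h3 := Real.log_two_gt_d9
  have h4 : 100 * v ≤ N + 1 := by
    rw [← hv2]
    nlinarith
  have h5 : (N : ℝ) * 0.69 ≤ N * Real.log 2 :=
    mul_le_mul_of_nonneg_left (by linarith) (by linarith)
  rw [h1]
  linarith

theorem PRIMES_count (n : ℕ) : Nat.primeCounting (n / 5) ≤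
    ((Icc 5 (n / 5)).filter (fun p : ℕ => p.Prime ∧ Real.sqrt n < p)).card +
      (⌊Real.sqrt n⌋₊ + 5) := by
  unfold Nat.primeCounting Nat.primeCounting'
  rw [Nat.count_eq_card_filter_range]
  have hsub : (range (n / 5 + 1)).filter Nat.Prime ⊆
      ((Icc 5 (n / 5)).filter (fun p : ℕ => p.Prime ∧ Real.sqrt n < p)) ∪
        range (⌊Real.sqrt n⌋₊ + 5) := by
    intro p hp
    rw [mem_filter, mem_range] at hp
    rw [mem_union, mem_filter, mem_Icc, mem_range]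
    by_cases h : ⌊Real.sqrt n⌋₊ + 5 ≤ p
    · left
      refine ⟨⟨by omega, by omega⟩, hp.2, ?_⟩
      exact (Nat.floor_lt (Real.sqrt_nonneg _)).1 (by omega)
    · right
      omega
  refine (card_le_card hsub).trans ((card_union_le _ _).trans (le_of_eq ?_))
  rw [card_range]

theorem t_PRIMES : S_PRIMES := by
  refine ⟨1 / 24, by norm_num, ?_⟩
  filter_upwards [eventually_ge_atTop (192 ^ 4)] with n hn
  obtain ⟨u, hu0, hu2, hu4, hlog⟩ := PRIMES_root hn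
  have hn' : (192 : ℝ) ^ 4 ≤ n := by
    rw [← hu4]
    exact pow_le_pow_left₀ (by norm_num) hu0 4
  have hlog0 : 0 < Real.log n := Real.log_pos (by linarith)
  obtain ⟨N, hN⟩ : ∃ N, N = n / 5 := ⟨_, rfl⟩
  have hN1 : n < 5 * N + 5 := by omega
  have hN2 : 5 * N ≤ n := by omega
  have hNb : 10000 ≤ N := by omega
  have hN1' : (n : ℝ) < 5 * N + 5 := by exact_mod_cast hN1
  have hN2' : 5 * (N : ℝ) ≤ n := by exact_mod_cast hN2
  have hNb' : (10000 : ℝ) ≤ N := by exact_mod_cast hNb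
  have hc := PRIMES_count n
  rw [← hN] at hc
  have hc' : (Nat.primeCounting N : ℝ) ≤
      (((Icc 5 (n / 5)).filter (fun p : ℕ => p.Prime ∧ Real.sqrt n < p)).card : ℝ) +
        ((⌊Real.sqrt n⌋₊ : ℝ) + 5) := by
    rw [← hN]
    exact_mod_cast hc
  have hfl : (⌊Real.sqrt n⌋₊ : ℝ) ≤ u ^ 2 := by
    rw [hu2]
    exact Nat.floor_le (Real.sqrt_nonneg _)
  -- lower bound for the number of primes
  have h1 := Chebyshev.pi_ge N
  have hlogN : 0 < Real.log N := Real.log_pos (by linarith)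
  have hlogNn : Real.log N ≤ Real.log n := Real.log_le_log (by linarith) (by linarith)
  have h2 : (n : ℝ) / 12 / Real.log n ≤ Nat.primeCounting N := by
    refine le_trans ?_ h1
    refine le_trans ?_ (div_le_div_of_nonneg_right (PRIMES_log hNb) hlogN.le)
    refine le_trans ?_ (div_le_div_of_nonneg_left (by linarith) hlogN hlogNn)
    exact div_le_div_of_nonneg_right (by linarith) hlog0.le
  have h3 : u ^ 2 + 5 ≤ (n : ℝ) / 24 / Real.log n := by
    rw [le_div_iff₀ hlog0]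
    have h4 : (u ^ 2 + 5) * Real.log n ≤ (u ^ 2 + 5) * (4 * u) :=
      mul_le_mul_of_nonneg_left hlog (by positivity)
    have h5 : (u ^ 2 + 5) * (4 * u) ≤ (2 * u ^ 2) * (4 * u) :=
      mul_le_mul_of_nonneg_right (by nlinarith) (by linarith)
    have h6 : (2 * u ^ 2) * (4 * u) ≤ (n : ℝ) / 24 := by
      rw [← hu4]
      have h7 : 0 ≤ u ^ 3 * (u - 192) := mul_nonneg (by positivity) (by linarith)
      nlinarith
    linarith
  have h8 : (1 / 24 : ℝ) * n / Real.log n = n / 12 / Real.log n - n / 24 / Real.log n := by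
    ring
  rw [h8]
  linarith

open scoped Classical in
theorem t_SQ : S_SQ := by
  intro n y hy
  obtain ⟨D, hD⟩ : ∃ D, D = ⌈y⌉₊ := ⟨_, rfl⟩
  have hyD : y ≤ D := by
    rw [hD]
    exact Nat.le_ceil y
  have hD1 : 1 ≤ D := by
    have h1 : (1 : ℝ) ≤ D := hy.trans hyD
    exact_mod_cast h1
  have hsub : (Icc 1 n).filter (fun m : ℕ => ∃ p : ℕ, p.Prime ∧ y ≤ p ∧ p ^ 2 ∣ m) ⊆
      (Ioo (D - 1) (n + 1)).biUnion (fun d => (Ioc 0 n).filter (fun m => d ^ 2 ∣ m)) := by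
    intro m hm
    rw [mem_filter, mem_Icc] at hm
    obtain ⟨⟨hm1, hm2⟩, p, hp, hyp, hpm⟩ := hm
    rw [mem_biUnion]
    have h1 : D ≤ p := by
      rw [hD]
      exact Nat.ceil_le.2 hyp
    have h2 : p ≤ n := by
      have h3 : p ^ 2 ≤ m := Nat.le_of_dvd hm1 hpm
      have h4 := hp.one_lt
      nlinarith
    exact ⟨p, mem_Ioo.2 ⟨by omega, by omega⟩,
      mem_filter.2 ⟨mem_Ioc.2 ⟨by omega, hm2⟩, hpm⟩⟩
  have h3 : ∀ d ∈ Ioo (D - 1) (n + 1),
      (((Ioc 0 n).filter (fun m => d ^ 2 ∣ m)).card : ℝ) ≤ (n : ℝ) * ((d : ℝ) ^ 2)⁻¹ := by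
    intro d _
    rw [Nat.Ioc_filter_dvd_card_eq_div, ← div_eq_mul_inv]
    have h4 : ((n / d ^ 2 : ℕ) : ℝ) ≤ (n : ℝ) / ((d ^ 2 : ℕ) : ℝ) := Nat.cast_div_le
    push_cast at h4
    exact_mod_cast h4
  have h1 : (((Icc 1 n).filter (fun m : ℕ => ∃ p : ℕ, p.Prime ∧ y ≤ p ∧ p ^ 2 ∣ m)).card : ℝ) ≤
      ∑ d ∈ Ioo (D - 1) (n + 1), (((Ioc 0 n).filter (fun m => d ^ 2 ∣ m)).card : ℝ) := by
    exact_mod_cast (card_le_card hsub).trans card_biUnion_le
  refine h1.trans ((sum_le_sum h3).trans ?_)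
  rw [← mul_sum]
  have h5 := sum_Ioo_inv_sq_le (α := ℝ) (D - 1) (n + 1)
  have h6 : (((D - 1 : ℕ) : ℝ)) + 1 = D := by
    have h7 : D - 1 + 1 = D := by omega
    exact_mod_cast h7
  rw [h6] at h5
  have hy0 : 0 < y := by linarith
  have h8 : (2 : ℝ) / D ≤ 2 / y := div_le_div_of_nonneg_left (by norm_num) hy0 hyD
  calc (n : ℝ) * ∑ d ∈ Ioo (D - 1) (n + 1), ((d : ℝ) ^ 2)⁻¹ ≤ n * (2 / y) :=
        mul_le_mul_of_nonneg_left (h5.trans h8) (Nat.cast_nonneg n)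
    _ = 2 * n / y := by ring

end Pool.Agent.N538.PQ
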