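import Pool.Agent.N538.PQ.Stm

/-! Project PQ (helper538): many odd values (PQ/VALS), by helper703. -/

set_option autoImplicit false

namespace Pool.Agent.N538.PQ

open Finset MeasureTheory ProbabilityTheory Filter

lemma VALS_ev (C : ℝ) : ∀ᶠ n : ℕ in atTop,
    C * Real.log n ≤ Real.exp (Real.log n ^ ((1 : ℝ) / 5) / 2) := by
  have h1 : Tendsto (fun n : ℕ => Real.log (n : ℝ)) atTop atTop :=
    Real.tendsto_log_atTop.comp tendsto_natCast_atTop_atTop
  have h2 : Tendsto (fun n : ℕ => Real.log (n : ℝ) ^ ((1 : ℝ) / 5) / 2) atTop atTop :=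
    ((tendsto_rpow_atTop (by norm_num : (0 : ℝ) < 1 / 5)).comp h1).atTop_div_const (by norm_num)
  have h3 := (Real.tendsto_exp_div_pow_atTop 5).comp h2
  filter_upwards [h3.eventually_ge_atTop (32 * C), h1.eventually_gt_atTop 0] with n hn hL
  have hu : (Real.log n ^ ((1 : ℝ) / 5) / 2) ^ 5 = Real.log n / 32 := by
    rw [div_pow, ← Real.rpow_natCast, ← Real.rpow_mul hL.le]
    norm_num
  simp only [Function.comp] at hn
  rw [hu, le_div_iff₀ (by positivity)] at hn
  linarith

lemma VALS_cnt (n : ℕ) (B A : Finset ℕ) (a : ℕ → ℕ)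
    (hB : ∀ p ∈ B, 1 ≤ a p ∧ a p ≤ 4 ∧ a p * p ≤ n ∧ n - a p * p ∈ A) : B.card ≤ 4 * A.card := by
  have h : B.card ≤ ((Icc 1 4) ×ˢ A).card := by
    apply Finset.card_le_card_of_injOn (fun p => (a p, n - a p * p))
    · intro p hp
      have hp' := hB p (Finset.mem_coe.1 hp)
      rw [Finset.mem_coe, Finset.mem_product, Finset.mem_Icc]
      exact ⟨⟨hp'.1, hp'.2.1⟩, hp'.2.2.2⟩
    · intro p hp p' hp' h
      have h1 := hB p (Finset.mem_coe.1 hp)
      have h2 := hB p' (Finset.mem_coe.1 hp')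
      simp only [Prod.mk.injEq] at h
      obtain ⟨h3, h4⟩ := h
      have h5 : a p * p = a p' * p' := by omega
      rw [h3] at h5
      exact Nat.eq_of_mul_eq_mul_left (by omega) h5
  rw [Finset.card_product, Nat.card_Icc] at h
  simpa using h

lemma VALS_a (n p : ℕ) (hp : p % 2 = 1) : ∃ a : ℕ, 1 ≤ a ∧ a ≤ 4 ∧ (a * p) % 4 = n % 4 := by
  have h1 : p % 4 = 1 ∨ p % 4 = 3 := by omega
  have h2 : n % 4 = 0 ∨ n % 4 = 1 ∨ n % 4 = 2 ∨ n % 4 = 3 := by omega
  rcases h1 with h1 | h1 <;> rcases h2 with h2 | h2 | h2 | h2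
  · exact ⟨4, by omega, by omega, by omega⟩
  · exact ⟨1, by omega, by omega, by omega⟩
  · exact ⟨2, by omega, by omega, by omega⟩
  · exact ⟨3, by omega, by omega, by omega⟩
  · exact ⟨4, by omega, by omega, by omega⟩
  · exact ⟨3, by omega, by omega, by omega⟩
  · exact ⟨2, by omega, by omega, by omega⟩
  · exact ⟨1, by omega, by omega, by omega⟩

theorem t_VALS (h1 : S_RANKIN) (h2 : S_PRIMES) (h3 : S_SQ) (h4 : S_COLL) (h5 : S_PAR) : S_VALS := by
  classical
  obtain ⟨c, hc, h2⟩ := h2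
  have hlog : Tendsto (fun n : ℕ => Real.log (n : ℝ)) atTop atTop :=
    Real.tendsto_log_atTop.comp tendsto_natCast_atTop_atTop
  unfold S_VALS
  filter_upwards [h1, h2, VALS_ev (32 / c), VALS_ev 3, hlog.eventually_ge_atTop (max 1 (16 / c)),
    eventually_gt_atTop 10] with n hn1 hn2 hn3 hn4 hn5 hn6
  have hL1 : 1 ≤ Real.log n := le_trans (le_max_left _ _) hn5
  have hLc : 16 / c ≤ Real.log n := le_trans (le_max_right _ _) hn5
  set L := Real.log (n : ℝ) with hLdef
  set s := Real.exp (L ^ ((1 : ℝ) / 5) / 2) with hs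
  have hspos : 0 < s := Real.exp_pos _
  have hs3 : 3 ≤ s := by nlinarith
  have hsL : 32 * L ≤ c * s := by
    have : 32 / c * L = (32 * L) / c := by ring
    rw [this, div_le_iff₀ hc] at hn3
    linarith
  have hy : yy n = s * s := by
    unfold yy
    rw [hs, ← Real.exp_add]
    congr 1
    ring
  have hy3 : 3 ≤ yy n := by rw [hy]; nlinarith
  have hypos : 0 < yy n := by linarith
  have hnpos : (0 : ℝ) < n := by exact_mod_cast (by omega : 0 < n)
  have hLpos : 0 < L := by linarith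
  obtain ⟨P, hP, hPm⟩ : ∃ P : Finset ℕ, c * n / L ≤ (P.card : ℝ) ∧
      ∀ p ∈ P, 5 ≤ p ∧ p ≤ n / 5 ∧ p.Prime ∧ Real.sqrt n < p :=
    ⟨_, hn2, fun p hp => by
      have h := Finset.mem_filter.1 hp
      have h' := Finset.mem_Icc.1 h.1
      exact ⟨h'.1, h'.2, h.2.1, h.2.2⟩⟩
  have hodd : ∀ p ∈ P, p % 2 = 1 := by
    intro p hp
    obtain ⟨h5p, _, hpp, _⟩ := hPm p hp
    rcases hpp.eq_two_or_odd with h | h
    · omega
    · exact h
  have hex : ∀ p ∈ P, ∃ a : ℕ, 1 ≤ a ∧ a ≤ 4 ∧ (a * p) % 4 = n % 4 := fun p hp => VALS_a n p (hodd p hp)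
  choose! a ha using hex
  have hle : ∀ p ∈ P, a p * p + 2 < n := by
    intro p hp
    obtain ⟨_, hpn, _, _⟩ := hPm p hp
    have h' : a p * p ≤ 4 * (n / 5) := Nat.mul_le_mul (ha p hp).2.1 hpn
    omega
  have h4d : ∀ p ∈ P, 4 ∣ n - a p * p := by
    intro p hp
    have h' := hle p hp
    have h'' := (ha p hp).2.2
    omega
  set B1 := P.filter (fun p => ∀ p' : ℕ, p'.Prime → p' ∣ (n - a p * p) → (p' : ℝ) < yy n) with hB1def
  set B2 := P.filter (fun p => ∃ p' : ℕ, p'.Prime ∧ yy n ≤ p' ∧ p' ^ 2 ∣ (n - a p * p)) with hB2def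
  set G := P.filter (fun p => p ∉ B1 ∧ p ∉ B2) with hGdef
  have hB1 : (B1.card : ℝ) ≤ 4 * (n / L ^ 3) := by
    refine le_trans ?_ (mul_le_mul_of_nonneg_left hn1 (by norm_num))
    exact_mod_cast VALS_cnt n B1 _ a (fun p hp => by
      have hp1 := (Finset.mem_filter.1 hp)
      have h' := hle p hp1.1
      refine ⟨(ha p hp1.1).1, (ha p hp1.1).2.1, by omega, ?_⟩
      rw [Finset.mem_filter, Finset.mem_Icc]
      exact ⟨⟨by omega, by omega⟩, hp1.2⟩)
  have hB2 : (B2.card : ℝ) ≤ 4 * (2 * n / yy n) := by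
    refine le_trans ?_ (mul_le_mul_of_nonneg_left (h3 n (yy n) (by linarith)) (by norm_num))
    exact_mod_cast VALS_cnt n B2 _ a (fun p hp => by
      have hp1 := (Finset.mem_filter.1 hp)
      have h' := hle p hp1.1
      refine ⟨(ha p hp1.1).1, (ha p hp1.1).2.1, by omega, ?_⟩
      rw [Finset.mem_filter, Finset.mem_Icc]
      exact ⟨⟨by omega, by omega⟩, hp1.2⟩)
  have hPG : P.card ≤ G.card + (B1.card + B2.card) := by
    have hsub : P ⊆ G ∪ (B1 ∪ B2) := by
      intro p hp
      by_cases h : p ∈ B1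
      · exact Finset.mem_union_right _ (Finset.mem_union_left _ h)
      · by_cases h' : p ∈ B2
        · exact Finset.mem_union_right _ (Finset.mem_union_right _ h')
        · exact Finset.mem_union_left _ (Finset.mem_filter.2 ⟨hp, h, h'⟩)
    calc P.card ≤ (G ∪ (B1 ∪ B2)).card := Finset.card_le_card hsub
      _ ≤ G.card + (B1 ∪ B2).card := Finset.card_union_le _ _
      _ ≤ G.card + (B1.card + B2.card) := by
        have := Finset.card_union_le B1 B2
        omega
  have hG : c * n / (2 * L) ≤ (G.card : ℝ) := by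
    have hPG' : (P.card : ℝ) ≤ G.card + (B1.card + B2.card) := by exact_mod_cast hPG
    have e1 : 4 * (n / L ^ 3) ≤ c * n / (4 * L) := by
      have h16 : 16 ≤ c * L := by
        rw [div_le_iff₀ hc] at hLc; linarith
      rw [← mul_div_assoc, div_le_div_iff₀ (by positivity) (by positivity)]
      have : 16 ≤ c * L ^ 2 := by nlinarith
      have h' : 4 * (n : ℝ) * (4 * L) = 16 * (n * L) := by ring
      have h'' : c * n * L ^ 3 = (c * L ^ 2) * (n * L) := by ring
      rw [h', h'']
      exact mul_le_mul_of_nonneg_right this (by positivity)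
    have e2 : 4 * (2 * n / yy n) ≤ c * n / (4 * L) := by
      rw [← mul_div_assoc, div_le_div_iff₀ hypos (by positivity)]
      have h32 : 32 * L ≤ c * yy n := by
        rw [hy]
        have : c * s ≤ c * (s * s) := by
          apply mul_le_mul_of_nonneg_left _ hc.le
          nlinarith
        linarith
      have h' : 4 * (2 * (n : ℝ)) * (4 * L) = (32 * L) * n := by ring
      have h'' : c * n * yy n = (c * yy n) * n := by ring
      rw [h', h'']
      exact mul_le_mul_of_nonneg_right h32 hnpos.le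
    have e3 : c * n / L = c * n / (2 * L) + (c * n / (4 * L) + c * n / (4 * L)) := by
      field_simp
      ring
    linarith
  have hexr : ∀ p ∈ G, ∃ r : ℕ, r.Prime ∧ yy n ≤ r ∧ r ∣ (n - a p * p) ∧ ¬ r ^ 2 ∣ (n - a p * p) := by
    intro p hp
    obtain ⟨hpP, hpB1, hpB2⟩ := Finset.mem_filter.1 hp
    have hb1 : ¬ ∀ p' : ℕ, p'.Prime → p' ∣ (n - a p * p) → (p' : ℝ) < yy n :=
      fun h => hpB1 (Finset.mem_filter.2 ⟨hpP, h⟩)
    push Not at hb1
    obtain ⟨r, hr, hrd, hry⟩ := hb1
    refine ⟨r, hr, hry, hrd, fun h => hpB2 (Finset.mem_filter.2 ⟨hpP, r, hr, hry, h⟩)⟩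
  choose! r hr using hexr
  have hGP : ∀ p ∈ G, p ∈ P := fun p hp => (Finset.mem_filter.1 hp).1
  -- the cofactor
  have hl : ∀ p ∈ G, 0 < (n - a p * p) / r p ∧ 4 ∣ (n - a p * p) / r p ∧ 3 ≤ r p ∧
      ¬ r p ∣ (n - a p * p) / r p ∧ n = a p * p + (n - a p * p) / r p * r p ∧
      (((n - a p * p) / r p : ℕ) : ℝ) ≤ n / yy n := by
    intro p hp
    obtain ⟨hrp, hry, hrd, hr2⟩ := hr p hp
    have hpP := hGP p hp
    have hle' := hle p hpP
    have h4' := h4d p hpP
    have hr3 : 3 ≤ r p := by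
      have : (3 : ℝ) ≤ r p := le_trans hy3 hry
      exact_mod_cast this
    obtain ⟨l, hl⟩ := hrd
    have hrpos : 0 < r p := hrp.pos
    have hdiv : (n - a p * p) / r p = l := by
      rw [hl]; exact Nat.mul_div_cancel_left l hrpos
    have hmpos : 0 < n - a p * p := by omega
    have hlpos : 0 < l := by
      rcases Nat.eq_zero_or_pos l with h | h
      · rw [h] at hl; omega
      · exact h
    have hcop : Nat.Coprime 4 (r p) := by
      rw [Nat.coprime_comm, Nat.Prime.coprime_iff_not_dvd hrp]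
      intro h
      have : r p ∣ 2 := hrp.dvd_of_dvd_pow (n := 2) (by simpa using h)
      have := Nat.le_of_dvd (by norm_num) this
      omega
    rw [hdiv]
    refine ⟨hlpos, ?_, hr3, ?_, ?_, ?_⟩
    · rw [hl] at h4'
      exact hcop.dvd_of_dvd_mul_left h4'
    · rintro ⟨e, he⟩
      apply hr2
      rw [hl, he]
      exact ⟨e, by ring⟩
    · have : l * r p = n - a p * p := by rw [hl]; ring
      omega
    · rw [le_div_iff₀ hypos]
      have h' : (l : ℝ) * r p ≤ n := by
        have : l * r p ≤ n := by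
          have : l * r p = n - a p * p := by rw [hl]; ring
          omega
        exact_mod_cast this
      have hl0 : (0 : ℝ) ≤ l := by positivity
      nlinarith
  set V := G.image (fun p => q n (a p * p)) with hV
  have hfib : ∀ v ∈ V, (G.filter (fun p => q n (a p * p) = v)).card ≤ 4 * ⌊(n : ℝ) / yy n⌋₊ := by
    intro v _
    have h : (G.filter (fun p => q n (a p * p) = v)).card ≤
        ((Icc 1 4) ×ˢ (Icc 1 ⌊(n : ℝ) / yy n⌋₊)).card := by
      apply Finset.card_le_card_of_injOn (fun p => (a p, (n - a p * p) / r p))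
      · intro p hp
        have hp' := (Finset.mem_filter.1 (Finset.mem_coe.1 hp)).1
        have hpP := hGP p hp'
        obtain ⟨hl1, _, _, _, _, hl6⟩ := hl p hp'
        rw [Finset.mem_coe, Finset.mem_product, Finset.mem_Icc, Finset.mem_Icc]
        exact ⟨⟨(ha p hpP).1, (ha p hpP).2.1⟩, hl1, Nat.le_floor hl6⟩
      · intro p hp p' hp' heq
        obtain ⟨hpG, hpv⟩ := Finset.mem_filter.1 (Finset.mem_coe.1 hp)
        obtain ⟨hpG', hpv'⟩ := Finset.mem_filter.1 (Finset.mem_coe.1 hp')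
        simp only [Prod.mk.injEq] at heq
        obtain ⟨e1, e2⟩ := heq
        have hpP := hGP p hpG
        have hpP' := hGP p' hpG'
        obtain ⟨l1, l2, l3, l4, l5, l6⟩ := hl p hpG
        obtain ⟨k1, k2, k3, k4, k5, k6⟩ := hl p' hpG'
        have k5' : n = a p * p' + (n - a p * p) / r p * r p' := by
          rw [e2, e1]; exact k5
        rw [← e1] at hpv'
        refine h4 n (a p) ((n - a p * p) / r p) p p' (r p) (r p') (ha p hpP).1 (ha p hpP).2.1 l1 l2
          (hPm p hpP).2.2.1 (hPm p' hpP').2.2.1 (hPm p hpP).1 (hPm p' hpP').1 (hr p hpG).1 (hr p' hpG').1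
          l4 ?_ l5 ?_ (hpv.trans hpv'.symm)
        · rw [e2]; exact k4
        · exact k5'
    rw [Finset.card_product, Nat.card_Icc, Nat.card_Icc] at h
    simpa using h
  have hcard : (G.card : ℝ) ≤ 4 * (n / yy n) * V.card := by
    have h := Finset.card_le_mul_card_image G (4 * ⌊(n : ℝ) / yy n⌋₊) hfib
    have h' : (G.card : ℝ) ≤ (4 * ⌊(n : ℝ) / yy n⌋₊ : ℕ) * (V.card : ℝ) := by exact_mod_cast h
    refine le_trans h' ?_
    apply mul_le_mul_of_nonneg_right _ (by positivity)
    push_cast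
    have := Nat.floor_le (show 0 ≤ (n : ℝ) / yy n by positivity)
    linarith
  refine ⟨V, ?_, ?_⟩
  · by_contra hlt
    push Not at hlt
    have e1 : 4 * (n / yy n) * (V.card : ℝ) ≤ 4 * (n / yy n) * s :=
      mul_le_mul_of_nonneg_left hlt.le (by positivity)
    have e2 : 4 * (n / yy n) * s = 4 * n / s := by
      rw [hy]; field_simp
    have e3 : 4 * n / s < c * n / (2 * L) := by
      rw [div_lt_div_iff₀ hspos (by positivity)]
      have h' : 4 * (n : ℝ) * (2 * L) = (8 * L) * n := by ring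
      have h'' : c * n * s = (c * s) * n := by ring
      rw [h', h'']
      apply mul_lt_mul_of_pos_right _ hnpos
      linarith
    linarith
  · intro v hv
    obtain ⟨p, hpG, rfl⟩ := Finset.mem_image.1 hv
    have hpP := hGP p hpG
    obtain ⟨h5p, hpn, hpp, hps⟩ := hPm p hpP
    obtain ⟨l1, l2, l3, l4, l5, l6⟩ := hl p hpG
    have hle' := hle p hpP
    have ha1 := (ha p hpP).1
    have hap : 0 < a p * p := Nat.mul_pos (by omega) (by omega)
    refine ⟨?_, ?_, ?_, a p * p, hap, hle', rfl⟩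
    · exact h5 n (a p) ((n - a p * p) / r p) p (r p) ha1 (ha p hpP).2.1 l1 l2 hpp h5p (hr p hpG).1 l3 l4 l5
    · have e : p ≤ q n (a p * p) := by
        unfold q
        have hd : Nat.totient p ∣ Nat.totient (a p * p) := Nat.totient_dvd_of_dvd (Dvd.intro_left _ rfl)
        have hle2 := Nat.le_of_dvd (Nat.totient_pos.2 hap) hd
        rw [Nat.totient_prime hpp] at hle2
        omega
      have : (p : ℝ) ≤ (q n (a p * p) : ℕ) := by exact_mod_cast e
      linarith
    · unfold q
      have e1 := Nat.totient_le (a p * p)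
      have e2 := Nat.totient_le (n - a p * p)
      omega

end Pool.Agent.N538.PQ
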