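import Pool.Agent.N538.PQ.Stm

/-!
# PQ/WIN: many values in a short window (helper720, project PQ of helper538)
-/

set_option autoImplicit false

namespace Pool.Agent.N538.PQ

open Finset MeasureTheory ProbabilityTheory Filter

theorem WIN_asym (κ : ℝ) : ∀ᶠ n : ℕ in atTop,
    80 * Real.log n ^ (4 * κ + 8) * Real.exp (Real.log n ^ ((1 : ℝ) / 6)) ≤
      Real.exp (Real.log n ^ ((1 : ℝ) / 5) / 2) := by
  have hX : Tendsto (fun n : ℕ => Real.log n) atTop atTop :=
    Real.tendsto_log_atTop.comp tendsto_natCast_atTop_atTop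
  have hU : Tendsto (fun n : ℕ => Real.log n ^ ((1 : ℝ) / 5)) atTop atTop :=
    (tendsto_rpow_atTop (by norm_num)).comp hX
  have h30 : Tendsto (fun n : ℕ => Real.log n ^ ((1 : ℝ) / 30)) atTop atTop :=
    (tendsto_rpow_atTop (by norm_num)).comp hX
  have hL := ((isLittleO_rpow_exp_pos_mul_atTop (5 * (4 * κ + 8)) (b := 1 / 4)
    (by norm_num)).comp_tendsto hU).bound (c := 1 / 80) (by norm_num)
  filter_upwards [hL, h30.eventually_ge_atTop 4, hX.eventually_ge_atTop 1] with n h1 h2 h3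
  have h0 : (0 : ℝ) ≤ Real.log n := by linarith
  have hpos : (0 : ℝ) < Real.log n := by linarith
  simp only [Function.comp_apply] at h1
  rw [← Real.rpow_mul h0, Real.norm_of_nonneg (Real.rpow_nonneg h0 _),
    Real.norm_of_nonneg (Real.exp_pos _).le] at h1
  have e1 : (1 : ℝ) / 5 * (5 * (4 * κ + 8)) = 4 * κ + 8 := by ring
  rw [e1] at h1
  have h4 : Real.log n ^ ((1 : ℝ) / 6) ≤ 1 / 4 * Real.log n ^ ((1 : ℝ) / 5) := by
    have e2 : Real.log n ^ ((1 : ℝ) / 5) = Real.log n ^ ((1 : ℝ) / 6) * Real.log n ^ ((1 : ℝ) / 30) := by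
      rw [← Real.rpow_add hpos]
      norm_num
    rw [e2]
    have h5 : 0 ≤ Real.log n ^ ((1 : ℝ) / 6) := Real.rpow_nonneg h0 _
    nlinarith
  have e3 : Real.log n ^ ((1 : ℝ) / 5) / 2 =
      1 / 4 * Real.log n ^ ((1 : ℝ) / 5) + 1 / 4 * Real.log n ^ ((1 : ℝ) / 5) := by ring
  rw [e3, Real.exp_add]
  refine mul_le_mul ?_ (Real.exp_le_exp.2 h4) (Real.exp_pos _).le (Real.exp_pos _).le
  linarith

/-- disjoint subsets of given size -/
theorem WIN_cut (K m : ℕ) : ∀ W : Finset ℕ, m * K ≤ W.card → ∃ T : ℕ → Finset ℕ,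
    (∀ i < m, T i ⊆ W ∧ (T i).card = K) ∧ ∀ i < m, ∀ j < i, Disjoint (T i) (T j) := by
  induction m with
  | zero => exact fun W _ => ⟨fun _ => ∅, by simp, by simp⟩
  | succ m ih =>
    intro W hW
    have h1 : K ≤ W.card := le_trans (Nat.le_mul_of_pos_left K (Nat.succ_pos m)) hW
    obtain ⟨S, hS, hSc⟩ := Finset.exists_subset_card_eq h1
    have h2 : m * K ≤ (W \ S).card := by
      rw [Finset.card_sdiff_of_subset hS, hSc]
      have : (m + 1) * K = m * K + K := by ring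
      omega
    obtain ⟨T, hT1, hT2⟩ := ih (W \ S) h2
    refine ⟨fun i => if i = m then S else T i, ?_, ?_⟩
    · intro i hi
      by_cases him : i = m
      · simp only [him, if_true]
        exact ⟨hS, hSc⟩
      · simp only [him, if_false]
        have := hT1 i (by omega)
        exact ⟨this.1.trans Finset.sdiff_subset, this.2⟩
    · intro i hi j hj
      by_cases him : i = m
      · have hjm : j ≠ m := by omega
        simp only [him, if_true, hjm, if_false]
        exact Finset.disjoint_of_subset_right (hT1 j (by omega)).1 Finset.disjoint_sdiff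
      · have hjm : j ≠ m := by omega
        simp only [him, hjm, if_false]
        exact hT2 i (by omega) j hj

theorem t_WIN (h : S_VALS) : S_WIN := by
  intro κ hκ
  have hX : Tendsto (fun n : ℕ => Real.log n) atTop atTop :=
    Real.tendsto_log_atTop.comp tendsto_natCast_atTop_atTop
  filter_upwards [h, WIN_asym κ, hX.eventually_ge_atTop 1, eventually_ge_atTop 1] with
    n hV hA hX1 hn
  obtain ⟨V, hVc, hV⟩ := hV
  obtain ⟨X, hXd⟩ : ∃ X : ℝ, X = Real.log n := ⟨_, rfl⟩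
  rw [← hXd] at hX1 hA hVc ⊢
  have hX0 : (0 : ℝ) ≤ X := by linarith
  have hXp : (0 : ℝ) < X := by linarith
  obtain ⟨M, hM⟩ : ∃ M : ℕ, M = ⌈Real.exp (X ^ ((1 : ℝ) / 6))⌉₊ := ⟨_, rfl⟩
  obtain ⟨K, hK⟩ : ∃ K : ℕ, K = ⌈X ^ (3 * κ + 3)⌉₊ := ⟨_, rfl⟩
  obtain ⟨L, hL⟩ : ∃ L : ℝ, L = 2 * X ^ (κ + 4) := ⟨_, rfl⟩
  have hXk : 1 ≤ X ^ (κ + 4) := Real.one_le_rpow hX1 (by linarith)
  have hL2 : 2 ≤ L := by rw [hL]; linarith
  have hL0 : 0 < L := by linarith
  have hM2 : (M : ℝ) ≤ 2 * Real.exp (X ^ ((1 : ℝ) / 6)) := by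
    have h1 := (Nat.ceil_lt_add_one (Real.exp_pos (X ^ ((1 : ℝ) / 6))).le).le
    have h2 : 1 ≤ Real.exp (X ^ ((1 : ℝ) / 6)) := Real.one_le_exp (Real.rpow_nonneg hX0 _)
    rw [hM]
    linarith
  have hXk3 : 1 ≤ X ^ (3 * κ + 3) := Real.one_le_rpow hX1 (by linarith)
  have hK2 : (K : ℝ) ≤ 2 * X ^ (3 * κ + 3) := by
    have h1 := (Nat.ceil_lt_add_one (a := X ^ (3 * κ + 3)) (by linarith)).le
    rw [hK]
    linarith
  have hK1 : 1 ≤ K := by
    rw [hK]
    exact Nat.one_le_ceil_iff.2 (by linarith)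
  have hlogv : ∀ v ∈ V, 0 ≤ Real.log v ∧ Real.log v ≤ X + 1 ∧ (1 : ℝ) ≤ v := by
    intro v hv
    obtain ⟨-, h2, h3, -⟩ := hV v hv
    have h4 : (1 : ℝ) ≤ Real.sqrt n := by
      rw [Real.one_le_sqrt]
      exact_mod_cast hn
    have h5 : (1 : ℝ) ≤ v := h4.trans h2
    refine ⟨Real.log_nonneg h5, ?_, h5⟩
    have h6 : (v : ℝ) ≤ 2 * n := by exact_mod_cast h3
    have h7 : Real.log v ≤ Real.log (2 * n) := Real.log_le_log (by linarith) h6
    have hn0 : (n : ℝ) ≠ 0 := by
      have : (1 : ℝ) ≤ n := by exact_mod_cast hn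
      linarith
    rw [Real.log_mul (by norm_num) hn0, ← hXd] at h7
    have h8 : Real.log 2 < 1 := by
      have := Real.log_two_lt_d9
      linarith
    linarith
  -- the classes
  have hmaps : ∀ v ∈ V, (fun v : ℕ => (⌊L * Real.log v⌋₊, v % 4)) v ∈
      Finset.range (⌊L * (X + 1)⌋₊ + 1) ×ˢ Finset.range 4 := by
    intro v hv
    obtain ⟨h1, h2, -⟩ := hlogv v hv
    rw [Finset.mem_product, Finset.mem_range, Finset.mem_range]
    refine ⟨Nat.lt_succ_of_le (Nat.floor_le_floor (mul_le_mul_of_nonneg_left h2 hL0.le)), ?_⟩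
    exact Nat.mod_lt _ (by norm_num)
  have hcard : (Finset.range (⌊L * (X + 1)⌋₊ + 1) ×ˢ Finset.range 4).card * (M * K) ≤ V.card := by
    have h1 : (((Finset.range (⌊L * (X + 1)⌋₊ + 1) ×ˢ Finset.range 4).card : ℕ) : ℝ) ≤
        20 * X ^ (κ + 5) := by
      rw [Finset.card_product, Finset.card_range, Finset.card_range]
      push_cast
      have h2 : ((⌊L * (X + 1)⌋₊ : ℕ) : ℝ) ≤ L * (X + 1) := Nat.floor_le (by positivity)
      have e : X ^ (κ + 5) = X ^ (κ + 4) * X := by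
        have : κ + 5 = (κ + 4) + 1 := by ring
        rw [this, Real.rpow_add_one hXp.ne']
      rw [e]
      rw [hL] at h2 ⊢
      nlinarith [mul_le_mul_of_nonneg_left hX1 (by linarith : (0 : ℝ) ≤ X ^ (κ + 4))]
    have h3 : (((Finset.range (⌊L * (X + 1)⌋₊ + 1) ×ˢ Finset.range 4).card * (M * K) : ℕ) : ℝ) ≤
        (V.card : ℝ) := by
      refine le_trans ?_ hVc
      refine le_trans ?_ hA
      push_cast at h1 ⊢
      have e : 80 * X ^ (4 * κ + 8) * Real.exp (X ^ ((1 : ℝ) / 6)) =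
          (20 * X ^ (κ + 5)) * ((2 * Real.exp (X ^ ((1 : ℝ) / 6))) * (2 * X ^ (3 * κ + 3))) := by
        have : 4 * κ + 8 = (κ + 5) + (3 * κ + 3) := by ring
        rw [this, Real.rpow_add hXp]
        ring
      rw [e]
      refine mul_le_mul h1 (mul_le_mul hM2 hK2 (Nat.cast_nonneg _) (by positivity))
        (by positivity) (by positivity)
    exact_mod_cast h3
  obtain ⟨y, -, hy⟩ := Finset.exists_le_card_fiber_of_mul_le_card_of_maps_to hmaps
    ⟨(0, 0), by simp⟩ hcard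
  obtain ⟨T, hT1, hT2⟩ := WIN_cut K M _ hy
  have hTW : ∀ i < M, ∀ v ∈ T i, v ∈ V ∧ (⌊L * Real.log v⌋₊, v % 4) = y := by
    intro i hi v hv
    have := (hT1 i hi).1 hv
    rw [Finset.mem_filter] at this
    exact this
  rw [← hM]
  refine ⟨T, ?_, ?_, ?_, hT2⟩
  · intro i hi
    have hne : (T i).Nonempty := by
      rw [← Finset.card_pos, (hT1 i hi).2]
      exact hK1
    have hZ := Finset.min'_mem (T i) hne
    refine ⟨(T i).min' hne, ⟨hZ, fun v hv => (hV v (hTW i hi v hv).1).1,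
      fun v hv => (hV v (hTW i hi v hv).1).2.1, fun v hv => (hV v (hTW i hi v hv).1).2.2.1,
      fun v hv => Finset.min'_le _ _ hv, ?_, ?_⟩⟩
    · intro v hv
      obtain ⟨Z, hZd⟩ : ∃ Z : ℕ, Z = (T i).min' hne := ⟨_, rfl⟩
      rw [← hZd] at hZ ⊢
      obtain ⟨hvV, hv2⟩ := hTW i hi v hv
      obtain ⟨hZV, hZ2⟩ := hTW i hi Z hZ
      obtain ⟨a1, -, a3⟩ := hlogv v hvV
      obtain ⟨b1, -, b3⟩ := hlogv Z hZV
      have h1 : ⌊L * Real.log v⌋₊ = ⌊L * Real.log Z⌋₊ := by
        have := hv2.trans hZ2.symm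
        exact (Prod.mk.inj this).1
      have h2 : L * Real.log v < L * Real.log Z + 1 := by
        have h3 := Nat.lt_floor_add_one (L * Real.log v)
        have h4 := Nat.floor_le (a := L * Real.log Z) (by positivity)
        rw [h1] at h3
        linarith
      have h5 : Real.log v ≤ Real.log Z + 1 / L := by
        have h6 : Real.log Z + 1 / L = (L * Real.log Z + 1) / L := by
          field_simp
        rw [h6, le_div_iff₀ hL0]
        linarith
      have h7 : (v : ℝ) ≤ Z * Real.exp (1 / L) := by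
        have h8 := Real.exp_le_exp.2 h5
        rw [Real.exp_add, Real.exp_log (by linarith), Real.exp_log (by linarith)] at h8
        exact h8
      have h9 : Real.exp (1 / L) ≤ 1 + 2 * (1 / L) := by
        have hL1 : 1 / L ≤ 1 := by
          rw [div_le_one hL0]
          linarith
        have hL3 : 0 < 1 / L := by positivity
        have h10 := Real.abs_exp_sub_one_sub_id_le (x := 1 / L) (by rw [abs_of_pos hL3]; exact hL1)
        have h11 := (abs_le.1 h10).2
        nlinarith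
      have h12 : 2 * (1 / L) = 1 / X ^ (κ + 4) := by
        rw [hL]
        field_simp
      rw [h12] at h9
      calc (v : ℝ) ≤ Z * Real.exp (1 / L) := h7
        _ ≤ Z * (1 + 1 / X ^ (κ + 4)) := mul_le_mul_of_nonneg_left h9 (by linarith)
        _ = Z + Z / Real.log n ^ (κ + 4) := by rw [← hXd]; ring
    · intro v hv w hw hvw
      have h1 := (hTW i hi v hv).2.trans (hTW i hi w hw).2.symm
      have h2 := (Prod.mk.inj h1).2
      omega
  · intro i hi
    rw [(hT1 i hi).2, hK]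
    exact Nat.le_ceil _
  · intro i hi v hv
    exact (hV v (hTW i hi v hv).1).2.2.2

end Pool.Agent.N538.PQ
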